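import Pool.Agent.TH890.P3.Lau
import Pool.Agent.H413R3.Part.Van

set_option autoImplicit false

/-!
# Hecke operator on the integral powers (of both signs) of the discriminant modulo 2
-/

namespace Pool.Agent.TH890.P3

open PowerSeries Pool.Agent.H397R2.PP

/-- the embedding of power series -/
noncomputable abbrev ι : (ZMod 2)⟦X⟧ →+* K := HahnSeries.ofPowerSeries ℤ (ZMod 2)

theorem ι_coeff (f : (ZMod 2)⟦X⟧) (n : ℕ) : (ι f).coeff (n : ℤ) = PowerSeries.coeff n f :=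
  LaurentSeries.coeff_coe_powerSeries f n

theorem ι_coeff_neg (f : (ZMod 2)⟦X⟧) (k : ℤ) (h : k < 0) : (ι f).coeff k = 0 := by
  have := PowerSeries.coeff_coe f k
  rw [if_pos h] at this
  exact this

theorem V_ι (f : (ZMod 2)⟦X⟧) : V (ι f) = ι (PowerSeries.expand 3 (by norm_num) f) := by
  ext k
  by_cases h3 : (3 : ℤ) ∣ k
  · obtain ⟨c, rfl⟩ := h3
    rw [V_coeff_mul]
    rcases lt_or_ge c 0 with h | h
    · rw [ι_coeff_neg _ _ h, ι_coeff_neg _ _ (by omega)]
    · obtain ⟨n, rfl⟩ := Int.eq_ofNat_of_zero_le h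
      rw [ι_coeff, show (3 : ℤ) * (n : ℤ) = ((3 * n : ℕ) : ℤ) by push_cast; ring, ι_coeff,
        coeff_expand_mul]
  · rw [V_coeff_not _ _ h3]
    rcases lt_or_ge k 0 with h | h
    · rw [ι_coeff_neg _ _ h]
    · obtain ⟨n, rfl⟩ := Int.eq_ofNat_of_zero_le h
      rw [ι_coeff, coeff_expand, if_neg]
      intro h
      exact h3 (by exact_mod_cast h)

theorem U_ι (f : (ZMod 2)⟦X⟧) : U (ι f) = ι (T3.U f) := by
  ext k
  rw [U_coeff]
  rcases lt_or_ge k 0 with h | h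
  · rw [ι_coeff_neg _ _ h, ι_coeff_neg _ _ (by omega)]
  · obtain ⟨n, rfl⟩ := Int.eq_ofNat_of_zero_le h
    rw [ι_coeff, show (3 : ℤ) * (n : ℤ) = ((3 * n : ℕ) : ℤ) by push_cast; ring, ι_coeff,
      T3.U, coeff_mk]

theorem T_ι (f : (ZMod 2)⟦X⟧) : T (ι f) = ι (Tp 3 f) := by
  unfold T
  rw [V_ι, U_ι, T3.Tp_eq, map_add]

/-- the discriminant modulo 2 -/
noncomputable def D : K := ι Db

theorem D_ne : D ≠ 0 := by
  intro h
  have h1 := congrArg (fun a : K => a.coeff ((1 : ℕ) : ℤ)) h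
  simp only [HahnSeries.coeff_zero] at h1
  rw [D, ι_coeff, T3.coeff_one_Db] at h1
  exact one_ne_zero h1

theorem D_eq : D ^ 4 = D * V D + (V D) ^ 4 := by
  rw [D, V_ι, ← map_pow, modular_equation, map_add, map_mul, map_pow]

theorem T_sq (f : (ZMod 2)⟦X⟧) : Tp 3 (f ^ 2) = (Tp 3 f) ^ 2 := by
  rw [T3.Tp_eq, T3.Tp_eq, T3.U_sq, map_pow]
  have := T3.add_pow 1 (T3.U f) (PowerSeries.expand 3 (by norm_num) f)
  rw [pow_one] at this
  exact this.symm

theorem T_Db_pow (e : ℕ) : Tp 3 (Db ^ (2 ^ e)) = 0 := by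
  induction e with
  | zero => exact (T3.init modular_equation).1
  | succ e ih => rw [pow_succ, pow_mul, T_sq, ih]; ring

theorem UV_pow (e : ℕ) : U (D ^ (2 ^ e)) = V (D ^ (2 ^ e)) := by
  have h : T (D ^ (2 ^ e)) = 0 := by
    rw [D, ← map_pow, T_ι, T_Db_pow, map_zero]
  exact eq_of_add h

/-- powers with integral exponents -/
noncomputable def P (k : ℤ) : K := D ^ k

theorem P_add (a b : ℤ) : P a * P b = P (a + b) := (zpow_add₀ D_ne a b).symm

theorem P_nat (n : ℕ) : P (n : ℤ) = ι (Db ^ n) := by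
  rw [P, zpow_natCast, D, map_pow]

theorem V_P (k : ℤ) : V (P k) = (V D) ^ k := by
  rw [P, map_zpow₀]

theorem VD_ne : V D ≠ 0 := (map_ne_zero V).mpr D_ne

theorem T_rec (k : ℤ) : T (P (k + 4)) = P 1 * T (P (k + 1)) + P 4 * T (P k) := by
  have hX4 : P 4 = V (P 1) * P 1 + V (P 4) := by
    have := D_eq
    rw [V_P, V_P, P, P, zpow_one, zpow_one]
    have e : (4 : ℤ) = ((4 : ℕ) : ℤ) := rfl
    rw [e, zpow_natCast, zpow_natCast, this]; ring
  have hV4 : V (P 4) = V (P 1) * P 1 + P 4 := by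
    linear_combination - hX4 - two_zero (V (P 1) * P 1)
  have hU : U (P (k + 4)) = P 1 * U (P (k + 1)) + P 4 * U (P k) := by
    have e : P (k + 4) = V (P 1) * P (k + 1) + V (P 4) * P k := by
      rw [← P_add k 4, ← P_add k 1]
      linear_combination (P k) * hX4
    rw [e, U_add, U_mul, U_mul]
  have hV : V (P (k + 4)) = P 1 * V (P (k + 1)) + P 4 * V (P k) := by
    rw [← P_add k 4, map_mul, ← P_add k 1, map_mul]
    linear_combination (V (P k)) * hV4
  unfold T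
  rw [hU, hV]; ring

theorem T_0 : T (P 0) = 0 := by
  have h1 : V (P 0) = P 0 := by rw [P, zpow_zero, map_one]
  have h2 : U (P 0) = P 0 := by
    have := U_V (P 0)
    rw [h1] at this
    exact this
  unfold T
  rw [h1, h2]
  exact two_zero _

theorem T_1 : T (P 1) = 0 := by
  have h := P_nat 1
  rw [show ((1 : ℕ) : ℤ) = 1 from rfl] at h
  rw [h, T_ι, (T3.init modular_equation).1, map_zero]

theorem T_2 : T (P 2) = 0 := by
  have h := P_nat 2
  rw [show ((2 : ℕ) : ℤ) = 2 from rfl] at h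
  have h2 := T_Db_pow 1
  rw [pow_one] at h2
  rw [h, T_ι, h2, map_zero]

theorem T_3 : T (P 3) = P 1 := by
  have h := P_nat 3
  rw [show ((3 : ℕ) : ℤ) = 3 from rfl] at h
  rw [h, T_ι, (T3.init modular_equation).2.1, ← P_nat]
  rfl

/-- span of the powers with exponents `≡ π (mod 2)` in `[a, b]` -/
def S (π a b : ℤ) : AddSubgroup K :=
  AddSubgroup.closure {f | ∃ j : ℤ, (2 : ℤ) ∣ (j - π) ∧ a ≤ j ∧ j ≤ b ∧ f = P j}

theorem S_mem (π a b j : ℤ) (h : (2 : ℤ) ∣ (j - π)) (h1 : a ≤ j) (h2 : j ≤ b) : P j ∈ S π a b :=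
  AddSubgroup.subset_closure ⟨j, h, h1, h2, rfl⟩

theorem S_mono {π π' a b a' b' : ℤ} (hπ : (2 : ℤ) ∣ (π - π')) (ha : a' ≤ a) (hb : b ≤ b') :
    S π a b ≤ S π' a' b' := by
  apply AddSubgroup.closure_mono
  rintro f ⟨j, h, h1, h2, rfl⟩
  exact ⟨j, by omega, by omega, by omega, rfl⟩

theorem S_mul {π a b : ℤ} (c : ℤ) {f : K} (hf : f ∈ S π a b) :
    P c * f ∈ S (π + c) (a + c) (b + c) := by
  induction hf using AddSubgroup.closure_induction with
  | mem x hx =>
    obtain ⟨j, h, h1, h2, rfl⟩ := hx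
    rw [P_add]
    exact S_mem _ _ _ _ (by omega) (by omega) (by omega)
  | zero => rw [mul_zero]; exact AddSubgroup.zero_mem _
  | add x y _ _ hx hy => rw [mul_add]; exact AddSubgroup.add_mem _ hx hy
  | neg x _ hx => rw [mul_neg]; exact AddSubgroup.neg_mem _ hx

theorem T_neg (a : K) : T (-a) = - T a := by
  have h := T_add a (-a)
  rw [add_neg_cancel, T_zero] at h
  linear_combination - h

theorem T_pos (n : ℕ) : T (P n) ∈ S n 0 n := by
  induction n using Nat.strong_induction_on with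
  | _ n ih =>
    rcases Nat.lt_or_ge n 4 with hn | hn
    · interval_cases n
      · rw [show ((0 : ℕ) : ℤ) = 0 from rfl, T_0]; exact AddSubgroup.zero_mem _
      · rw [show ((1 : ℕ) : ℤ) = 1 from rfl, T_1]; exact AddSubgroup.zero_mem _
      · rw [show ((2 : ℕ) : ℤ) = 2 from rfl, T_2]; exact AddSubgroup.zero_mem _
      · rw [show ((3 : ℕ) : ℤ) = 3 from rfl, T_3]
        exact S_mem _ _ _ _ (by norm_num) (by norm_num) (by norm_num)
    · obtain ⟨m, rfl⟩ : ∃ m, n = m + 4 := ⟨n - 4, by omega⟩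
      have h1 := ih m (by omega)
      have h2 := ih (m + 1) (by omega)
      have e := T_rec m
      rw [show ((m + 4 : ℕ) : ℤ) = (m : ℤ) + 4 by push_cast; ring, e]
      apply AddSubgroup.add_mem
      · have h3 := S_mul 1 h2
        push_cast at h3
        exact S_mono (by omega) (by omega) (by omega) h3
      · have h3 := S_mul 4 h1
        exact S_mono (by omega) (by omega) (by omega) h3

theorem T_rec' (k : ℤ) : T (P k) = P (-4) * T (P (k + 4)) + P (-3) * T (P (k + 1)) := by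
  rw [T_rec k, mul_add, ← mul_assoc, ← mul_assoc, P_add, P_add]
  have e1 : (-4 : ℤ) + 1 = -3 := by norm_num
  have e2 : (-4 : ℤ) + 4 = 0 := by norm_num
  have e3 : P 0 = 1 := by rw [P, zpow_zero]
  rw [e1, e2, e3]
  linear_combination - two_zero (P (-3) * T (P (k + 1)))

theorem T_negp (n : ℕ) : T (P (-(n : ℤ))) ∈ S (-(n : ℤ)) (-3 * n) (-n) := by
  induction n using Nat.strong_induction_on with
  | _ n ih =>
    rcases Nat.eq_zero_or_pos n with h0 | hn
    · subst h0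
      rw [show -((0 : ℕ) : ℤ) = 0 from rfl, T_0]; exact AddSubgroup.zero_mem _
    · have h1 := ih (n - 1) (by omega)
      rw [T_rec']
      apply AddSubgroup.add_mem
      · rcases Nat.lt_or_ge n 4 with h4 | h4
        · interval_cases n
          · rw [show -((1 : ℕ) : ℤ) + 4 = 3 from rfl, T_3, P_add]
            exact S_mem _ _ _ _ (by norm_num) (by norm_num) (by norm_num)
          · rw [show -((2 : ℕ) : ℤ) + 4 = 2 from rfl, T_2, mul_zero]; exact AddSubgroup.zero_mem _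
          · rw [show -((3 : ℕ) : ℤ) + 4 = 1 from rfl, T_1, mul_zero]; exact AddSubgroup.zero_mem _
        · have h2 := ih (n - 4) (by omega)
          have h3 := S_mul (-4) h2
          rw [show -(((n - 4 : ℕ)) : ℤ) = -(n : ℤ) + 4 by rw [Nat.cast_sub h4]; push_cast; ring] at h3
          refine S_mono ?_ ?_ ?_ h3
          · omega
          · rw [Nat.cast_sub h4]; push_cast; omega
          · omega
      · have h3 := S_mul (-3) h1
        rw [show -(((n - 1 : ℕ)) : ℤ) = -(n : ℤ) + 1 by rw [Nat.cast_sub hn]; push_cast; ring] at h3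
        refine S_mono ?_ ?_ ?_ h3
        · omega
        · rw [Nat.cast_sub hn]; push_cast; omega
        · omega

theorem T_S_pos {π b : ℤ} {f : K} (hf : f ∈ S π 0 b) : T f ∈ S π 0 b := by
  induction hf using AddSubgroup.closure_induction with
  | mem x hx =>
    obtain ⟨j, h, h1, h2, rfl⟩ := hx
    obtain ⟨n, rfl⟩ := Int.eq_ofNat_of_zero_le h1
    exact S_mono h (le_refl _) h2 (T_pos n)
  | zero => rw [T_zero]; exact AddSubgroup.zero_mem _
  | add x y _ _ hx hy => rw [T_add]; exact AddSubgroup.add_mem _ hx hy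
  | neg x _ hx => rw [T_neg]; exact AddSubgroup.neg_mem _ hx

theorem T_S_neg {π a b : ℤ} (hb : b ≤ 0) {f : K} (hf : f ∈ S π a b) : T f ∈ S π (3 * a) b := by
  induction hf using AddSubgroup.closure_induction with
  | mem x hx =>
    obtain ⟨j, h, h1, h2, rfl⟩ := hx
    obtain ⟨n, hn⟩ := Int.eq_ofNat_of_zero_le (show 0 ≤ -j by omega)
    obtain rfl : j = -(n : ℤ) := by omega
    exact S_mono h (by omega) h2 (T_negp n)
  | zero => rw [T_zero]; exact AddSubgroup.zero_mem _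
  | add x y _ _ hx hy => rw [T_add]; exact AddSubgroup.add_mem _ hx hy
  | neg x _ hx => rw [T_neg]; exact AddSubgroup.neg_mem _ hx

theorem T_iter_S {π b : ℤ} (n : ℕ) {f : K} (hf : f ∈ S π 0 b) : T^[n] f ∈ S π 0 b := by
  induction n generalizing f with
  | zero => exact hf
  | succ n ih => rw [Function.iterate_succ_apply]; exact ih (T_S_pos hf)

/-- the polynomial of the key identity -/
theorem Q_mem (M s : ℕ) (hs : 9 * s ≤ M) (hM : M % 2 = 0) (hso : s % 2 = 1) :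
    T (T (P M * P (-(s : ℤ)))) + P M * T (T (P (-(s : ℤ)))) ∈ S 1 0 (M - s) := by
  apply AddSubgroup.add_mem
  · rw [P_add]
    apply T_S_pos
    apply T_S_pos
    exact S_mem _ _ _ _ (by omega) (by omega) (by omega)
  · have h1 : P (-(s : ℤ)) ∈ S (-(s : ℤ)) (-(s : ℤ)) (-(s : ℤ)) :=
      S_mem _ _ _ _ (by omega) (le_refl _) (le_refl _)
    have h2 := T_S_neg (by omega) h1
    have h3 := T_S_neg (by omega) h2
    have h4 := S_mul (M : ℤ) h3
    refine S_mono ?_ ?_ ?_ h4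
    · omega
    · omega
    · omega

theorem coeff_S (σ r : ℕ) (hσ : 1 ≤ σ) (hr : ¬ 3 ∣ r) (b : ℤ) (hb : b < 2 * 4 ^ (σ - 1))
    {f : K} (hf : f ∈ S 1 0 b) : f.coeff (((3 ^ (2 ^ σ - 1) * r : ℕ)) : ℤ) = 0 := by
  induction hf using AddSubgroup.closure_induction with
  | mem x hx =>
    obtain ⟨j, h, h1, h2, rfl⟩ := hx
    obtain ⟨n, rfl⟩ := Int.eq_ofNat_of_zero_le h1
    rw [P_nat, ι_coeff]
    apply Pool.Agent.H413R3.Part.vanish σ n r hσ (by omega) _ hr
    have : (n : ℤ) < ((2 * 4 ^ (σ - 1) : ℕ) : ℤ) := by push_cast; omega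
    exact_mod_cast this
  | zero => rfl
  | add x y _ _ hx hy => rw [HahnSeries.coeff_add, hx, hy, add_zero]
  | neg x _ hx => rw [HahnSeries.coeff_neg, hx, neg_zero]

/-- **the vanishing of the sum of two coefficients** -/
theorem two_coeff (M e s σ a r j : ℕ) (hMe : M = 2 ^ e) (he : 1 ≤ e) (hs : 9 * s ≤ M)
    (hso : s % 2 = 1) (hσ : M - s < 2 * 4 ^ (σ - 1)) (hσ1 : 1 ≤ σ)
    (ha : a + 1 + 2 ^ j = 2 ^ σ) (hr : ¬ 3 ∣ r) :
    (D ^ M * P (-(s : ℤ)) + V (V (D ^ M)) * P (-(s : ℤ))).coeff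
      (9 ^ 2 ^ j * ((3 ^ (a + 1) * r : ℕ) : ℤ)) +
    (D ^ M * P (-(s : ℤ)) + V (V (D ^ M)) * P (-(s : ℤ))).coeff ((3 ^ (a + 1) * r : ℕ) : ℤ) = 0 := by
  have hA : U (D ^ M) = V (D ^ M) := by rw [hMe]; exact UV_pow e
  have hDM : D ^ M = P (M : ℤ) := by rw [P, zpow_natCast]
  have hM2 : M % 2 = 0 := by
    obtain ⟨u, rfl⟩ : ∃ u, e = u + 1 := ⟨e - 1, by omega⟩
    rw [hMe, pow_succ]; omega
  have h := key_coeff (D ^ M) (P (-(s : ℤ))) hA j ((3 ^ a * r : ℕ) : ℤ)
  have e1 : (3 : ℤ) * ((3 ^ a * r : ℕ) : ℤ) = ((3 ^ (a + 1) * r : ℕ) : ℤ) := by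
    push_cast; ring
  rw [e1] at h
  rw [h]
  have e2 : (3 : ℤ) ^ 2 ^ j * ((3 ^ a * r : ℕ) : ℤ) = ((3 ^ (2 ^ σ - 1) * r : ℕ) : ℤ) := by
    have : 2 ^ σ - 1 = 2 ^ j + a := by
      have h1 := Nat.one_le_two_pow (n := σ)
      have h2 := Nat.one_le_two_pow (n := j)
      omega
    rw [this, pow_add]
    push_cast; ring
  rw [e2]
  apply coeff_S σ r hσ1 hr ((M : ℤ) - s)
  · have h1 : ((M - s : ℕ) : ℤ) < ((2 * 4 ^ (σ - 1) : ℕ) : ℤ) := by exact_mod_cast hσ
    rw [Nat.cast_sub (by omega)] at h1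
    push_cast at h1
    exact h1
  · apply T_iter_S
    rw [hDM]
    exact Q_mem M s hs hM2 hso

end Pool.Agent.TH890.P3
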