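import Pool.Agent.TH890.P3.Link
import Pool.Agent.H413R3.Part.Count

set_option autoImplicit false

/-!
# Counting lemmas
-/

namespace Pool.Agent.TH890.P3

open PowerSeries Pool.Agent.H397R2.PP Pool.Agent.H413R3.Part

theorem card_cop (l : ℕ) :
    ((Finset.range (6 * l)).filter (fun u => Nat.Coprime u 6)).card = 2 * l := by
  induction l with
  | zero => simp
  | succ l ih =>
    have e : 6 * (l + 1) = 6 * l + 1 + 1 + 1 + 1 + 1 + 1 := by ring
    rw [e]
    simp only [Finset.range_add_one, Finset.filter_insert, cop6]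
    rw [if_pos (by omega), if_neg (by omega), if_neg (by omega), if_neg (by omega),
      if_pos (by omega), if_neg (by omega)]
    simp only [cop6] at ih
    rw [Finset.card_insert_of_notMem, Finset.card_insert_of_notMem, ih]
    · omega
    · simp
    · rw [Finset.mem_insert, Finset.mem_filter, Finset.mem_range]
      omega

theorem card_cop' (l : ℕ) :
    ((Finset.range (6 * l + 2)).filter (fun u => Nat.Coprime u 6)).card = 2 * l + 1 := by
  have e : 6 * l + 2 = 6 * l + 1 + 1 := by ring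
  rw [e]
  have ih := card_cop l
  simp only [Finset.range_add_one, Finset.filter_insert, cop6] at ih ⊢
  rw [if_pos (by omega), if_neg (by omega), Finset.card_insert_of_notMem, ih]
  simp

theorem mem_us (M n u : ℕ) (hM : 0 < M) : u ∈ us M n ↔ Nat.Coprime u 6 ∧ M * u ^ 2 ≤ n := by
  rw [us, Finset.mem_filter, Finset.mem_range]
  constructor
  · exact fun h => h.2
  · intro h
    refine ⟨?_, h⟩
    have h2 : u ≤ u ^ 2 := by nlinarith [Nat.zero_le u]
    have h3 : u ^ 2 ≤ M * u ^ 2 := Nat.le_mul_of_pos_left _ hM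
    omega

theorem card_us_even (M n l : ℕ) (hM : 0 < M) (h1 : M * (6 * l) ^ 2 ≤ n)
    (h2 : n < M * (6 * l + 1) ^ 2) : (us M n).card = 2 * l := by
  rw [← card_cop l]
  congr 1
  ext u
  rw [mem_us _ _ _ hM, Finset.mem_filter, Finset.mem_range]
  constructor
  · rintro ⟨hu, h⟩
    have h3 : M * u ^ 2 < M * (6 * l + 1) ^ 2 := by omega
    have h4 : u ^ 2 < (6 * l + 1) ^ 2 := lt_of_mul_lt_mul_left h3 (Nat.zero_le _)
    have h5 : u < 6 * l + 1 := lt_of_pow_lt_pow_left₀ 2 (by omega) h4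
    have h6 := (cop6 u).mp hu
    exact ⟨by omega, hu⟩
  · rintro ⟨h, hu⟩
    have h3 : u ^ 2 ≤ (6 * l) ^ 2 := Nat.pow_le_pow_left h.le 2
    exact ⟨hu, (Nat.mul_le_mul_left _ h3).trans h1⟩

theorem card_us_odd (M n l : ℕ) (hM : 0 < M) (h1 : M * (6 * l + 1) ^ 2 ≤ n)
    (h2 : n < M * (6 * l + 2) ^ 2) : (us M n).card = 2 * l + 1 := by
  rw [← card_cop' l]
  congr 1
  ext u
  rw [mem_us _ _ _ hM, Finset.mem_filter, Finset.mem_range]
  constructor
  · rintro ⟨hu, h⟩
    have h3 : M * u ^ 2 < M * (6 * l + 2) ^ 2 := by omega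
    have h4 : u ^ 2 < (6 * l + 2) ^ 2 := lt_of_mul_lt_mul_left h3 (Nat.zero_le _)
    have h5 : u < 6 * l + 2 := lt_of_pow_lt_pow_left₀ 2 (by omega) h4
    exact ⟨by omega, hu⟩
  · rintro ⟨h, hu⟩
    have h3 : u ^ 2 ≤ (6 * l + 1) ^ 2 := Nat.pow_le_pow_left (by omega) 2
    exact ⟨hu, (Nat.mul_le_mul_left _ h3).trans h1⟩

/-- one of the values is even -/
theorem exists_even (g : ℕ → ℕ) (M n1 n2 : ℕ) (h : psum2 g M n2 + psum2 g M n1 = 0)
    (hodd : ((us M n2).card + (us M n1).card) % 2 = 1) :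
    (∃ u ∈ us M n1, Even (g ((n1 - M * u ^ 2) / 8))) ∨
      (∃ u ∈ us M n2, Even (g ((n2 - M * u ^ 2) / 8))) := by
  by_contra hcon
  push Not at hcon
  obtain ⟨c1, c2⟩ := hcon
  have key : ∀ n, (∀ u ∈ us M n, ¬ Even (g ((n - M * u ^ 2) / 8))) →
      psum2 g M n = ((us M n).card : ZMod 2) := by
    intro n hn
    unfold psum2
    rw [Finset.sum_congr rfl (g := fun _ => (1 : ZMod 2))]
    · simp
    · intro u hu
      have := hn u hu
      rw [Nat.not_even_iff_odd] at this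
      exact (ZMod.natCast_eq_one_iff_odd).mpr this
  rw [key n1 c1, key n2 c2, ← Nat.cast_add] at h
  have h2 : (((us M n2).card + (us M n1).card : ℕ) : ZMod 2) = 1 :=
    (ZMod.natCast_eq_one_iff_odd).mpr (Nat.odd_iff.mpr hodd)
  rw [h2] at h
  exact absurd h (by decide)

theorem card_mod (J P v : ℕ) (hP : 0 < P) :
    (((Finset.range (J + 1)).filter (fun u => u ≡ v [MOD P])).card : ℝ) ≤ J / P + 1 := by
  rw [← Nat.count_eq_card_filter_range, Nat.count_modEq_card _ hP]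
  have hPR : (0 : ℝ) < P := by exact_mod_cast hP
  split_ifs with h
  · push_cast
    have h1 : (J + 1) / P = J / P := by
      rw [Nat.succ_div, if_neg, add_zero]
      intro hd
      rw [Nat.dvd_iff_mod_eq_zero] at hd
      omega
    rw [h1]
    have := Nat.cast_div_le (α := ℝ) (m := J) (n := P)
    linarith
  · rw [add_zero]
    have h1 := Nat.cast_div_le (α := ℝ) (m := J + 1) (n := P)
    have h2 : (1 : ℝ) / P ≤ 1 := by
      rw [div_le_one hPR]; exact_mod_cast hP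
    push_cast at h1 ⊢
    rw [add_div] at h1
    linarith

open Classical in
/-- the number of the `u ≤ J`, coprime to 6, with `8 e + M u ^ 2 - s` divisible by `3 ^ A` -/
theorem card_hits (i M s J A e : ℕ) (hMi : M = 2 ^ i) (hA : 1 ≤ A) :
    (((Finset.range (J + 1)).filter (fun u => Nat.Coprime u 6 ∧
      ∃ r, 3 ^ A * r + s = 8 * e + M * u ^ 2)).card : ℝ) ≤ 2 * (J / 3 ^ A + 1) := by
  set H := (Finset.range (J + 1)).filter (fun u => Nat.Coprime u 6 ∧
      ∃ r, 3 ^ A * r + s = 8 * e + M * u ^ 2) with hH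
  rcases H.eq_empty_or_nonempty with h0 | ⟨v, hv⟩
  · rw [h0]; simp; positivity
  rw [hH, Finset.mem_filter] at hv
  obtain ⟨-, hv6, r0, hr0⟩ := hv
  obtain ⟨w, hw⟩ : ∃ w : ℕ, 3 ^ A ∣ v + w := by
    refine ⟨3 ^ A * v - v, ?_⟩
    have h1 : v ≤ 3 ^ A * v := Nat.le_mul_of_pos_left _ (by positivity)
    rw [Nat.add_sub_cancel' h1]
    exact dvd_mul_right _ _
  have hsub : H ⊆ (Finset.range (J + 1)).filter (fun u => u ≡ v [MOD 3 ^ A]) ∪
      (Finset.range (J + 1)).filter (fun u => u ≡ w [MOD 3 ^ A]) := by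
    intro u hu
    rw [hH, Finset.mem_filter] at hu
    obtain ⟨hJ, hu6, r, hr⟩ := hu
    rw [Finset.mem_union, Finset.mem_filter, Finset.mem_filter]
    have h1 : ((3 : ℤ) ^ A) ∣ (2 : ℤ) ^ i * (((u : ℤ) - v) * ((u : ℤ) + v)) := by
      refine ⟨(r : ℤ) - r0, ?_⟩
      have e1 : (3 : ℤ) ^ A * r + s = 8 * e + M * (u : ℤ) ^ 2 := by exact_mod_cast hr
      have e2 : (3 : ℤ) ^ A * r0 + s = 8 * e + M * (v : ℤ) ^ 2 := by exact_mod_cast hr0
      have e3 : (M : ℤ) = 2 ^ i := by rw [hMi]; push_cast; rfl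
      rw [e3] at e1 e2
      linear_combination e2 - e1
    have hc3 : IsCoprime ((3 : ℤ) ^ A) ((2 : ℤ) ^ i) :=
      IsCoprime.pow (by exact ⟨1, -1, by norm_num⟩)
    have h2 := hc3.dvd_of_dvd_mul_left h1
    have p3 : Prime (3 : ℤ) := Int.prime_three
    have hv3 := ((cop6 v).mp hv6).2
    by_cases hd : (3 : ℤ) ∣ (u : ℤ) - v
    · left
      refine ⟨hJ, ?_⟩
      have hnd : ¬ (3 : ℤ) ∣ (u : ℤ) + v := by omega
      have hc : IsCoprime ((3 : ℤ) ^ A) ((u : ℤ) + v) :=
        IsCoprime.pow_left ((Prime.coprime_iff_not_dvd p3).mpr hnd)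
      have h4 := hc.dvd_of_dvd_mul_right h2
      have h5 : (((3 ^ A : ℕ)) : ℤ) ∣ (u : ℤ) - v := by push_cast; exact h4
      exact ((Nat.modEq_iff_dvd).mpr h5).symm
    · right
      refine ⟨hJ, ?_⟩
      have hc : IsCoprime ((3 : ℤ) ^ A) ((u : ℤ) - v) :=
        IsCoprime.pow_left ((Prime.coprime_iff_not_dvd p3).mpr hd)
      have h4 := hc.dvd_of_dvd_mul_left h2
      have h6 : ((3 : ℤ) ^ A) ∣ (v : ℤ) + w := by exact_mod_cast hw
      have h5 : (((3 ^ A : ℕ)) : ℤ) ∣ (u : ℤ) - w := by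
        push_cast
        have := dvd_sub h4 h6
        have e : (u : ℤ) + v - (v + w) = u - w := by ring
        rwa [e] at this
      exact ((Nat.modEq_iff_dvd).mpr h5).symm
  have h1 := (Finset.card_le_card hsub).trans (Finset.card_union_le _ _)
  have h2 := card_mod J (3 ^ A) v (by positivity)
  have h3 := card_mod J (3 ^ A) w (by positivity)
  have h4 : (H.card : ℝ) ≤
      (((Finset.range (J + 1)).filter (fun u => u ≡ v [MOD 3 ^ A])).card : ℝ) +
      (((Finset.range (J + 1)).filter (fun u => u ≡ w [MOD 3 ^ A])).card : ℝ) := by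
    exact_mod_cast h1
  push_cast at h2 h3
  linarith

theorem pow9_mod (b : ℕ) : 9 ^ 2 ^ b % 2 ^ (b + 3) = 1 := by
  have key : ∀ b : ℕ, ∃ c : ℕ, 9 ^ 2 ^ b = 2 ^ (b + 3) * c + 1 := by
    intro b
    induction b with
    | zero => exact ⟨1, by norm_num⟩
    | succ b ih =>
      obtain ⟨c, hc⟩ := ih
      refine ⟨c + c ^ 2 * 2 ^ (b + 2), ?_⟩
      rw [pow_succ, pow_mul, hc]
      ring
  obtain ⟨c, hc⟩ := key b
  rw [hc, Nat.mul_add_mod, Nat.mod_eq_of_lt]
  calc 1 < 2 ^ 3 := by norm_num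
    _ ≤ 2 ^ (b + 3) := Nat.pow_le_pow_right (by norm_num) (by omega)

end Pool.Agent.TH890.P3
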