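import Pool.Agent.TH890.P3.Main
import Pool.Agent.H413R3.Part.Sel

set_option autoImplicit false

/-!
# Even values of the number of `t`-multipartitions, `t` an odd multiple of 3
-/

namespace Pool.Agent.TH890.P3

open PowerSeries Pool.Agent.H397R2.PP Pool.Agent.H413R3.Part

/-- the bound coming from a given `M`. -/
theorem large2 (g : ℕ → ℕ) (s i M a b ρ x L κ P Q : ℕ) (hMi : M = 2 ^ i) (hi : 3 ≤ i)
    (hbi : b ≤ i) (hs : 9 * s ≤ M) (hκ : κ = 3 ^ 2 ^ b) (hP : P = 3 ^ (a + 1))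
    (hQ : Q = 9 ^ 2 ^ b * P)
    (hid : ∀ r, ¬ 3 ∣ r → (P * r + s) % 8 = 0 →
      psum2 g M (Q * r + s) + psum2 g M (P * r + s) = 0)
    (hL : L = Nat.sqrt (2 * x / (9 * 9 ^ 2 ^ b * M))) (hcond : 16 * (κ * P) ≤ L) :
    0.01 * Real.sqrt M * Real.sqrt x / (2 ^ b * 9 ^ 2 ^ b) ≤ ((evenAP g b ρ x).card : ℝ) := by
  have h := count2 g s i M a b ρ x L κ P Q hMi hi hbi hs hκ hP hQ hid hL
  have hM1 : 0 < M := by rw [hMi]; positivity
  have hκ3 : 3 ≤ κ := by
    rw [hκ]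
    calc 3 = 3 ^ 1 := by norm_num
      _ ≤ 3 ^ 2 ^ b := Nat.pow_le_pow_right (by norm_num) Nat.one_le_two_pow
  have hP3 : 3 ≤ P := by
    rw [hP]
    calc 3 = 3 ^ 1 := by norm_num
      _ ≤ 3 ^ (a + 1) := Nat.pow_le_pow_right (by norm_num) (by omega)
  have hκ2 : κ ^ 2 = 9 ^ 2 ^ b := by
    rw [hκ, ← pow_mul, mul_comm, pow_mul]; norm_num
  have hLsq2 : 2 * x < 9 * 9 ^ 2 ^ b * M * ((L + 1) * (L + 1)) := by
    have h1 : 2 * x / (9 * 9 ^ 2 ^ b * M) < (L + 1) * (L + 1) := by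
      rw [hL]; exact Nat.lt_succ_sqrt _
    rw [Nat.div_lt_iff_lt_mul (by positivity)] at h1
    calc 2 * x < (L + 1) * (L + 1) * (9 * 9 ^ 2 ^ b * M) := h1
      _ = 9 * 9 ^ 2 ^ b * M * ((L + 1) * (L + 1)) := by ring
  have hκR : (3 : ℝ) ≤ κ := by exact_mod_cast hκ3
  have hPR : (3 : ℝ) ≤ P := by exact_mod_cast hP3
  have hMR : (0 : ℝ) < M := by exact_mod_cast hM1
  have hcR : 16 * ((κ : ℝ) * P) ≤ L := by exact_mod_cast hcond
  have hE : (0 : ℝ) ≤ (evenAP g b ρ x).card := by positivity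
  have h9R : (9 : ℝ) ^ 2 ^ b = κ ^ 2 := by exact_mod_cast hκ2.symm
  rw [h9R]
  set E : ℝ := ((evenAP g b ρ x).card : ℝ) with hEdef
  have hL2 : 2 * (x : ℝ) ≤ 9 * κ ^ 2 * M * ((L + 1) * (L + 1)) := by
    have : ((2 * x : ℕ) : ℝ) ≤ ((9 * 9 ^ 2 ^ b * M * ((L + 1) * (L + 1)) : ℕ) : ℝ) := by
      exact_mod_cast hLsq2.le
    push_cast at this
    rw [h9R] at this
    exact this
  set B : ℝ := 2 ^ b with hB
  have hB1 : (1 : ℝ) ≤ B := one_le_pow₀ (by norm_num)
  have hMB : B ≤ M := by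
    rw [hMi, hB]; push_cast
    exact pow_le_pow_right₀ (by norm_num) hbi
  generalize hKdef : (κ : ℝ) = k at *
  generalize hPdef : (P : ℝ) = p at *
  generalize hLdef : (L : ℝ) = w at *
  have hk0 : 0 < k := by linarith
  have hp0 : 0 < p := by linarith
  have hkp : 9 ≤ k * p := by nlinarith
  have hw : 144 ≤ w := by linarith
  set r : ℝ := Real.sqrt M with hr
  have hr0 : 0 ≤ r := Real.sqrt_nonneg _
  have hr2 : r ^ 2 = M := Real.sq_sqrt (by positivity)
  have hX0 : 0 ≤ Real.sqrt x := Real.sqrt_nonneg _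
  have hX2 : Real.sqrt x ^ 2 = x := Real.sq_sqrt (by positivity)
  set z : ℝ := Real.sqrt x with hz
  -- the bound for `√x`
  have hzle : 1.4142 * z ≤ 3 * k * r * (w + 1) := by
    apply abs_le_of_sq_le_sq' _ (by positivity) |>.2
    have e1 : (3 * k * r * (w + 1)) ^ 2 = 9 * k ^ 2 * M * ((w + 1) * (w + 1)) := by
      rw [← hr2]; ring
    rw [e1]
    have e2 : (1.4142 * z) ^ 2 = 1.99996164 * z ^ 2 := by ring
    rw [e2, hX2]
    have : (0 : ℝ) ≤ x := by positivity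
    linarith
  have hzle2 : z ≤ 2.137 * (k * r * w) := by
    have h1 : k * r * (w + 1) ≤ k * r * (1.007 * w) := by
      apply mul_le_mul_of_nonneg_left _ (by positivity)
      linarith
    have h2 : 0 ≤ k * r * w := by positivity
    nlinarith
  -- multiply by `p`
  have h1 : (M / B) * w * (w - 1) / (2 * k) - 2 * w * p ≤ E * (16 * w + 4 * p) := by
    have h2 := mul_le_mul_of_nonneg_right h hp0.le
    have e1 : ((M : ℝ) * w * (w - 1) / (2 * B * k * p) - 2 * w) * p =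
        (M / B) * w * (w - 1) / (2 * k) - 2 * w * p := by
      field_simp
    have e2 : E * (16 * w / p + 4) * p = E * (16 * w + 4 * p) := by
      field_simp
    rw [e1, e2] at h2
    exact h2
  set Y : ℝ := M / B with hY
  have hY1 : 1 ≤ Y := by rw [hY, le_div_iff₀ (by linarith)]; linarith
  have hpw : 16 * k * p ≤ w := by linarith
  have h3 : E * (16 * w + 4 * p) ≤ E * (16.1 * w) := by
    apply mul_le_mul_of_nonneg_left _ hE
    have : 48 * p ≤ 16 * k * p := by nlinarith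
    linarith
  -- multiply by `k`
  have h4 : Y * w * (w - 1) / 2 - 2 * w * (k * p) ≤ k * (E * (16.1 * w)) := by
    have h5 := mul_le_mul_of_nonneg_left (h1.trans h3) hk0.le
    have e1 : k * (Y * w * (w - 1) / (2 * k) - 2 * w * p) = Y * w * (w - 1) / 2 - 2 * w * (k * p) := by
      field_simp
    rw [e1] at h5
    exact h5
  have h5 : 2 * w * (k * p) ≤ Y * w * w / 8 := by
    have h6 : 2 * w * (k * p) ≤ 2 * w * (w / 16) := by
      apply mul_le_mul_of_nonneg_left _ (by positivity)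
      linarith
    have h7 : 1 * (w * w / 8) ≤ Y * (w * w / 8) := mul_le_mul_of_nonneg_right hY1 (by positivity)
    linarith
  have h6 : 0.993 * (Y * w * w) / 2 ≤ Y * w * (w - 1) / 2 := by
    have : Y * w * (0.993 * w) ≤ Y * w * (w - 1) := by
      apply mul_le_mul_of_nonneg_left _ (by positivity)
      linarith
    linarith
  have h7 : 0.37 * (Y * w) * w ≤ 16.1 * (k * E) * w := by
    have e1 : k * (E * (16.1 * w)) = 16.1 * (k * E) * w := by ring
    have h8 : 0 ≤ Y * w * w := by positivity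
    linarith
  have h8 : 0.37 * (Y * w) ≤ 16.1 * (k * E) := le_of_mul_le_mul_right h7 (by linarith)
  have h9 : 0.0229 * (Y * w) ≤ k * E := by
    have : 0 ≤ Y * w := by positivity
    linarith
  -- conclusion
  rw [div_le_iff₀ (by positivity)]
  have h10 : 0.01 * r * z ≤ 0.01 * r * (2.137 * (k * r * w)) :=
    mul_le_mul_of_nonneg_left hzle2 (by positivity)
  have h11 : 0.01 * r * (2.137 * (k * r * w)) = 0.02137 * (M * w) * k := by
    rw [← hr2]; ring
  have h12 : M * w = (Y * w) * B := by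
    rw [hY]; field_simp
  rw [h11, h12] at h10
  refine h10.trans ?_
  have h13 : 0.02137 * ((Y * w) * B) * k = 0.02137 * (Y * w) * (B * k) := by ring
  have h14 : E * (B * k ^ 2) = (k * E) * (B * k) := by ring
  rw [h13, h14]
  apply mul_le_mul_of_nonneg_right _ (by positivity)
  have : 0 ≤ Y * w := by positivity
  linarith

theorem main3 (x t b ρ : ℕ) (hx : 2 ^ 132 ≤ x) (ht : t % 6 = 3)
    (hxt : 200 * (t : ℝ) ≤ Real.log x ^ 2) (hb : 50 * (2 : ℝ) ^ b ≤ Real.log x) :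
    Real.sqrt x * Real.log x / (1000 * 2 ^ b * 9 ^ 2 ^ b) ≤ ((evenAP (mp t) b ρ x).card : ℝ) := by
  obtain ⟨s, hs⟩ : ∃ s, t = 3 * s := ⟨t / 3, by omega⟩
  have hso : s % 2 = 1 := by omega
  have hxpos : 0 < x := lt_of_lt_of_le (by positivity) hx
  have hl2 := Real.log_two_gt_d9
  have hl2' := Real.log_two_lt_d9
  have hy : 91.49 ≤ Real.log x := by
    have h1 : Real.log ((2 : ℝ) ^ 132) ≤ Real.log x := by
      apply Real.log_le_log (by positivity)
      exact_mod_cast hx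
    rw [Real.log_pow] at h1
    push_cast at h1
    linarith
  set y := Real.log x with hydef
  set F := ⌊0.35 * y⌋₊ with hF
  have hF1 : (F : ℝ) ≤ 0.35 * y := Nat.floor_le (by linarith)
  have hF2 : 0.35 * y < F + 1 := Nat.lt_floor_add_one _
  have hF32 : 32 ≤ F := by
    have : (32 : ℝ) < F + 1 := by linarith
    have h2 : (32 : ℝ) < ((F + 1 : ℕ) : ℝ) := by push_cast; exact this
    have h3 : 32 < F + 1 := by exact_mod_cast h2
    omega
  set σ := Nat.log 2 F with hσ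
  have hσ1 : 2 ^ σ ≤ F := Nat.pow_log_le_self 2 (by omega)
  have hσ2 : F < 2 ^ (σ + 1) := Nat.lt_pow_succ_log_self (by norm_num) F
  have hσ5 : 5 ≤ σ := by
    by_contra hcon
    push Not at hcon
    have : 2 ^ (σ + 1) ≤ 2 ^ 5 := Nat.pow_le_pow_right (by norm_num) (by omega)
    omega
  have hW1 : (2 : ℝ) ^ σ ≤ 0.35 * y := by
    have : ((2 ^ σ : ℕ) : ℝ) ≤ F := by exact_mod_cast hσ1
    push_cast at this
    linarith
  have hW2 : 0.175 * y ≤ (2 : ℝ) ^ σ := by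
    have : ((F + 1 : ℕ) : ℝ) ≤ ((2 ^ (σ + 1) : ℕ) : ℝ) := by exact_mod_cast hσ2
    push_cast at this
    rw [pow_succ] at this
    linarith
  set W : ℝ := 2 ^ σ with hW
  obtain ⟨M, hM⟩ : ∃ M, M = 2 ^ (2 * σ - 1) := ⟨_, rfl⟩
  have hM0 : 0 < M := by rw [hM]; positivity
  have h2M : 2 * M = 4 ^ σ := by
    rw [hM, ← pow_succ', show 2 * σ - 1 + 1 = 2 * σ by omega, pow_mul]; norm_num
  have hM4 : M = 2 * 4 ^ (σ - 1) := by
    have : 4 ^ σ = 4 * 4 ^ (σ - 1) := by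
      obtain ⟨u, hu⟩ : ∃ u, σ = u + 1 := ⟨σ - 1, by omega⟩
      rw [hu, Nat.add_sub_cancel, pow_succ']
    omega
  have hMR : (M : ℝ) = W ^ 2 / 2 := by
    have h1 : ((2 * M : ℕ) : ℝ) = ((4 ^ σ : ℕ) : ℝ) := by rw [h2M]
    push_cast at h1
    have h2 : (4 : ℝ) ^ σ = W ^ 2 := by rw [hW, ← pow_mul, mul_comm, pow_mul]; norm_num
    rw [h2] at h1
    linarith
  have hWsq : (0.175 * y) ^ 2 ≤ W ^ 2 := pow_le_pow_left₀ (by linarith) hW2 2
  have hs9 : 9 * s ≤ M := by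
    have h1 : ((9 * s : ℕ) : ℝ) ≤ (M : ℝ) := by
      rw [hMR]
      have h2 : (t : ℝ) = 3 * s := by rw [hs]; push_cast; ring
      rw [h2] at hxt
      push_cast
      nlinarith
    exact_mod_cast h1
  have hbW : (2 : ℝ) ^ b < W := by linarith
  have hbσ : b < σ := by
    by_contra hcon
    push Not at hcon
    have : W ≤ 2 ^ b := by rw [hW]; exact pow_le_pow_right₀ (by norm_num) hcon
    linarith
  have hbN : 2 ^ b < 2 ^ σ := Nat.pow_lt_pow_right (by norm_num) hbσ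
  obtain ⟨a, ha⟩ : ∃ a, a + 1 + 2 ^ b = 2 ^ σ := ⟨2 ^ σ - 2 ^ b - 1, by omega⟩
  -- the condition
  have hcond : 16 * (3 ^ 2 ^ b * 3 ^ (a + 1)) ≤ Nat.sqrt (2 * x / (9 * 9 ^ 2 ^ b * M)) := by
    have e1 : 3 ^ 2 ^ b * 3 ^ (a + 1) = 3 ^ 2 ^ σ := by
      rw [← pow_add]; congr 1; omega
    rw [e1, Nat.le_sqrt', Nat.le_div_iff_mul_le (by positivity)]
    have hreal : (600 : ℝ) * 9 ^ (2 ^ σ + 2 ^ b) * 4 ^ σ ≤ x := by
      have hx0 : (0 : ℝ) < x := by exact_mod_cast hxpos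
      rw [← Real.log_le_log_iff (by positivity) hx0, Real.log_mul (by positivity) (by positivity),
        Real.log_mul (by positivity) (by positivity), Real.log_pow, Real.log_pow, log4]
      have hl9 := log9
      have hl600 := log600
      have h6 : 6 * (σ : ℝ) ≤ W := by
        have h61 : ((6 * σ : ℕ) : ℝ) ≤ ((2 ^ σ : ℕ) : ℝ) := Nat.cast_le.mpr (six_mul_le σ hσ5)
        push_cast at h61
        exact h61
      push_cast
      rw [← hydef]
      have h7 : (W + 2 ^ b) * Real.log 9 ≤ (0.37 * y) * (2.21808 : ℝ) := by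
        apply mul_le_mul (by linarith) (by linarith)
        · apply Real.log_nonneg; norm_num
        · linarith
      have h8 : (σ : ℝ) * (2 * Real.log 2) ≤ (W / 6) * (2 * 0.6931471808) := by
        apply mul_le_mul (by linarith) (by linarith)
        · linarith
        · positivity
      linarith
    have hnat : 600 * 9 ^ (2 ^ σ + 2 ^ b) * 4 ^ σ ≤ x := by exact_mod_cast hreal
    have e2 : (16 * 3 ^ 2 ^ σ) ^ 2 * (9 * 9 ^ 2 ^ b * M) * 2 =
        2304 * 9 ^ (2 ^ σ + 2 ^ b) * 4 ^ σ := by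
      rw [← h2M, pow_add 9, mul_pow, ← pow_mul 3, mul_comm (2 ^ σ) 2, pow_mul 3 2]
      norm_num
      ring
    have e3 : 2304 * 9 ^ (2 ^ σ + 2 ^ b) * 4 ^ σ ≤ 4 * (600 * 9 ^ (2 ^ σ + 2 ^ b) * 4 ^ σ) := by
      have : 2304 * (9 ^ (2 ^ σ + 2 ^ b) * 4 ^ σ) ≤ 2400 * (9 ^ (2 ^ σ + 2 ^ b) * 4 ^ σ) :=
        Nat.mul_le_mul_right _ (by norm_num)
      linarith
    omega
  have hB := large2 (mp t) s (2 * σ - 1) M a b ρ x _ (3 ^ 2 ^ b) (3 ^ (a + 1))
    (9 ^ 2 ^ b * 3 ^ (a + 1)) hM (by omega) (by omega) hs9 rfl rfl rfl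
    (by
      intro r hr hmod
      have h1 := psum2_add M (2 * σ - 1) s t σ a r b hM (by omega) hs9 hso hs
        (by omega) (by omega) ha hr hmod
      rw [← mul_assoc] at h1
      exact h1) rfl hcond
  refine le_trans ?_ hB
  have hr : 0.1237 * y ≤ Real.sqrt (M : ℝ) := by
    apply Real.le_sqrt_of_sq_le
    rw [hMR]
    nlinarith
  have hz := Real.sqrt_nonneg (x : ℝ)
  rw [div_le_div_iff₀ (by positivity) (by positivity)]
  have h1 : Real.sqrt x * (0.1237 * y) ≤ Real.sqrt x * Real.sqrt (M : ℝ) :=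
    mul_le_mul_of_nonneg_left hr hz
  have h0 : 0 ≤ Real.sqrt x * y := by
    apply mul_nonneg hz; linarith
  have h2 : Real.sqrt x * y ≤ 0.01 * Real.sqrt (M : ℝ) * Real.sqrt x * 1000 := by nlinarith
  calc Real.sqrt x * y * (2 ^ b * 9 ^ 2 ^ b)
      ≤ (0.01 * Real.sqrt (M : ℝ) * Real.sqrt x * 1000) * (2 ^ b * 9 ^ 2 ^ b) :=
        mul_le_mul_of_nonneg_right h2 (by positivity)
    _ = 0.01 * Real.sqrt (M : ℝ) * Real.sqrt x * (1000 * 2 ^ b * 9 ^ 2 ^ b) := by ring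

end Pool.Agent.TH890.P3
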