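import Mathlib

set_option autoImplicit false

/-!
# Laurent series modulo 2 and the operators `U_3`, `V_3`
-/

namespace Pool.Agent.TH890.P3

open PowerSeries

/-- Laurent series over the field with two elements -/
abbrev K : Type := LaurentSeries (ZMod 2)

/-- multiplication of the exponents by 3 -/
noncomputable def V : K →+* K :=
  HahnSeries.embDomainRingHom (AddMonoidHom.mulLeft (3 : ℤ))
    (fun a b h => by simpa using h) (fun a b => by simp)

theorem V_coeff_mul (a : K) (k : ℤ) : (V a).coeff (3 * k) = a.coeff k := by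
  unfold V
  exact HahnSeries.embDomain_coeff (f := (⟨⟨(AddMonoidHom.mulLeft (3 : ℤ)),
    (fun a b h => by simpa using h)⟩, (fun {a b} => by simp)⟩ : ℤ ↪o ℤ))

theorem V_coeff_not (a : K) (k : ℤ) (h : ¬ (3 : ℤ) ∣ k) : (V a).coeff k = 0 := by
  unfold V
  apply HahnSeries.embDomain_of_notMem_range
  rintro ⟨j, hj⟩
  exact h ⟨j, hj.symm⟩

theorem bdd (a : K) : ∃ n : ℤ, ∀ k < n, a.coeff k = 0 := by
  refine ⟨a.order, fun k hk => ?_⟩
  by_contra hne
  exact absurd (HahnSeries.order_le_of_coeff_ne_zero hne) (not_le.mpr hk)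

/-- the operator `U_3` -/
noncomputable def U (a : K) : K :=
  HahnSeries.ofSuppBddBelow (fun k => a.coeff (3 * k)) (by
    obtain ⟨n, hn⟩ := bdd a
    refine ⟨n / 3, fun k hk => ?_⟩
    by_contra hlt
    exact hk (hn _ (by omega)))

theorem U_coeff (a : K) (k : ℤ) : (U a).coeff k = a.coeff (3 * k) := rfl

theorem U_add (a b : K) : U (a + b) = U a + U b := by
  ext k
  rw [HahnSeries.coeff_add, U_coeff, U_coeff, U_coeff, HahnSeries.coeff_add]

theorem U_V (a : K) : U (V a) = a := by
  ext k
  rw [U_coeff, V_coeff_mul]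

theorem U_mul (a b : K) : U (V a * b) = a * U b := by
  ext k
  rw [U_coeff, HahnSeries.coeff_mul, HahnSeries.coeff_mul]
  symm
  apply Finset.sum_nbij' (fun p : ℤ × ℤ => (3 * p.1, 3 * p.2)) (fun p : ℤ × ℤ => (p.1 / 3, p.2 / 3))
  · rintro ⟨i, j⟩ h
    rw [Finset.mem_antidiagonal] at h ⊢
    obtain ⟨h1, h2, h3⟩ := h
    simp only [HahnSeries.mem_support, ne_eq] at h1 h2 h3 ⊢
    rw [V_coeff_mul]
    exact ⟨h1, h2, by omega⟩
  · rintro ⟨i, j⟩ h
    rw [Finset.mem_antidiagonal] at h ⊢
    obtain ⟨h1, h2, h3⟩ := h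
    simp only [HahnSeries.mem_support, ne_eq] at h1 h2 h3 ⊢
    obtain ⟨c, rfl⟩ : (3 : ℤ) ∣ i := by
      by_contra hc
      exact h1 (V_coeff_not a i hc)
    obtain ⟨d, rfl⟩ : (3 : ℤ) ∣ j := ⟨k - c, by omega⟩
    rw [V_coeff_mul] at h1
    rw [Int.mul_ediv_cancel_left _ (by norm_num), Int.mul_ediv_cancel_left _ (by norm_num)]
    exact ⟨h1, h2, by omega⟩
  · rintro ⟨i, j⟩ h
    simp
  · rintro ⟨i, j⟩ h
    rw [Finset.mem_antidiagonal] at h
    obtain ⟨h1, h2, h3⟩ := h
    simp only [HahnSeries.mem_support, ne_eq] at h1 h2 h3 ⊢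
    obtain ⟨c, rfl⟩ : (3 : ℤ) ∣ i := by
      by_contra hc
      exact h1 (V_coeff_not a i hc)
    obtain ⟨d, rfl⟩ : (3 : ℤ) ∣ j := ⟨k - c, by omega⟩
    simp
  · rintro ⟨i, j⟩ h
    rw [V_coeff_mul]
    rfl

theorem two_zero (a : K) : a + a = 0 := by
  ext k
  rw [HahnSeries.coeff_add, HahnSeries.coeff_zero]
  exact CharTwo.add_self_eq_zero _

theorem eq_of_add {a b : K} (h : a + b = 0) : a = b := by
  have h2 := two_zero b
  linear_combination h - h2

/-- the operator `T_3` -/
noncomputable def T (a : K) : K := U a + V a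

theorem T_add (a b : K) : T (a + b) = T a + T b := by
  unfold T
  rw [U_add, map_add]; ring

theorem U_zero : U 0 = 0 := by
  ext k
  rw [U_coeff, HahnSeries.coeff_zero, HahnSeries.coeff_zero]

theorem T_zero : T 0 = 0 := by
  unfold T
  rw [U_zero, map_zero, add_zero]

theorem UT (a : K) : U (U a) = U (T a) + a := by
  unfold T
  rw [U_add, U_V]
  linear_combination - two_zero a

/-- the key identity: `M` is given by `A = X ^ M` with `U A = V A` -/
theorem key (A φ : K) (hA : U A = V A) :
    U (U (U (A * φ + V (V A) * φ))) + U (A * φ + V (V A) * φ) =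
      U (T (T (A * φ)) + A * T (T φ)) := by
  have e1 : ∀ a : K, U (U a) = T (T a) + a + V (U a) + V (V a) := by
    intro a
    have h1 := two_zero (V (U a))
    have h2 := two_zero (V (V a))
    have h3 := two_zero a
    have h4 : T (T a) = U (U a) + a + V (U a) + V (V a) := by
      unfold T
      rw [U_add, U_V, map_add]; ring
    rw [h4]
    linear_combination - h1 - h2 - h3
  have e2 : U (V (V A) * φ) = V A * U φ := U_mul _ _
  have e3 : U (U (V (V A) * φ)) = A * U (U φ) := by rw [e2, U_mul]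
  have e4 : U (A * V (U φ)) = V A * U φ := by
    rw [mul_comm, U_mul, hA, mul_comm]
  have e5 : U (A * V (V φ)) = V A * V φ := by
    rw [mul_comm, U_mul, hA, mul_comm]
  have e6 : U (U (A * φ + V (V A) * φ)) =
      (T (T (A * φ)) + A * T (T φ)) + (V (U (A * φ)) + V (V (A * φ)) + A * V (U φ) +
        A * V (V φ)) := by
    rw [U_add, U_add, e3, e1 (A * φ), e1 φ]
    linear_combination two_zero (A * φ)
  have e7 : U (V (U (A * φ)) + V (V (A * φ)) + A * V (U φ) + A * V (V φ)) =
      U (A * φ) + V A * U φ := by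
    rw [U_add, U_add, U_add, U_V, U_V, e4, e5, map_mul]
    linear_combination two_zero (V A * V φ)
  rw [e6, U_add, e7, U_add (A * φ), e2]
  linear_combination two_zero (U (A * φ)) + two_zero (V A * U φ)

theorem iter_add (f : K → K) (hf : ∀ a b, f (a + b) = f a + f b) (n : ℕ) (a b : K) :
    f^[n] (a + b) = f^[n] a + f^[n] b := by
  induction n generalizing a b with
  | zero => rfl
  | succ n ih => rw [Function.iterate_succ_apply, Function.iterate_succ_apply,
      Function.iterate_succ_apply, hf, ih]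

/-- `U_3 ^ 2 + 1` -/
noncomputable def E (a : K) : K := U (U a) + a

theorem E_add (a b : K) : E (a + b) = E a + E b := by
  unfold E; rw [U_add, U_add]; ring

theorem E_eq (a : K) : E a = U (T a) := by
  unfold E
  rw [UT]
  linear_combination two_zero a

theorem E_iter_two_pow (j : ℕ) (a : K) : E^[2 ^ j] a = U^[2 * 2 ^ j] a + a := by
  induction j generalizing a with
  | zero => rfl
  | succ j ih =>
    rw [pow_succ, mul_two, Function.iterate_add_apply, ih, ih, iter_add U U_add,
      ← Function.iterate_add_apply]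
    have h1 : 2 * 2 ^ j + 2 * 2 ^ j = 2 * (2 ^ j + 2 ^ j) := by ring
    rw [h1]
    linear_combination two_zero (U^[2 * 2 ^ j] a)

theorem U_iter_E (n : ℕ) (a : K) : E (U^[n] a) = U^[n] (E a) := by
  unfold E
  rw [iter_add U U_add]
  rw [← Function.iterate_succ_apply' U n, ← Function.iterate_succ_apply' U (n + 1),
    ← Function.iterate_succ_apply U n, ← Function.iterate_succ_apply U (n + 1)]

theorem E_iter (n : ℕ) (a : K) : E^[n] a = U^[n] (T^[n] a) := by
  induction n generalizing a with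
  | zero => rfl
  | succ n ih =>
    rw [Function.iterate_succ_apply', ih, U_iter_E, E_eq, ← Function.iterate_succ_apply U n,
      ← Function.iterate_succ_apply' T n]

theorem E_iter_U (n : ℕ) (a : K) : E^[n] (U a) = U (E^[n] a) := by
  induction n generalizing a with
  | zero => rfl
  | succ n ih =>
    rw [Function.iterate_succ_apply, Function.iterate_succ_apply]
    have h1 : E (U a) = U (E a) := U_iter_E 1 a
    rw [h1, ih]

/-- the iterated form of the key identity -/
theorem key_iter (A φ : K) (hA : U A = V A) (j : ℕ) :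
    U^[2 * 2 ^ j + 1] (A * φ + V (V A) * φ) + U (A * φ + V (V A) * φ) =
      U^[2 ^ j] (T^[2 ^ j - 1] (T (T (A * φ)) + A * T (T φ))) := by
  set G := U (A * φ + V (V A) * φ) with hG
  set Q := T (T (A * φ)) + A * T (T φ) with hQ
  have h1 : E G = U Q := key A φ hA
  obtain ⟨n, hn⟩ : ∃ n, 2 ^ j = n + 1 := ⟨2 ^ j - 1, by have := Nat.one_le_two_pow (n := j); omega⟩
  have h2 : E^[2 ^ j] G = U^[2 ^ j] (T^[2 ^ j - 1] Q) := by
    rw [hn, Nat.add_sub_cancel, Function.iterate_succ_apply, h1, E_iter_U, E_iter,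
      ← Function.iterate_succ_apply' U n]
  rw [Function.iterate_succ_apply, ← hG, ← h2, E_iter_two_pow]

theorem U_iter_coeff (n : ℕ) (a : K) (k : ℤ) : (U^[n] a).coeff k = a.coeff (3 ^ n * k) := by
  induction n generalizing a with
  | zero => simp
  | succ n ih =>
    rw [Function.iterate_succ_apply, ih, U_coeff]
    congr 1
    ring

/-- coefficient form -/
theorem key_coeff (A φ : K) (hA : U A = V A) (j : ℕ) (k : ℤ) :
    (A * φ + V (V A) * φ).coeff (9 ^ 2 ^ j * (3 * k)) + (A * φ + V (V A) * φ).coeff (3 * k) =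
      (T^[2 ^ j - 1] (T (T (A * φ)) + A * T (T φ))).coeff (3 ^ 2 ^ j * k) := by
  have h := congrArg (fun a : K => a.coeff k) (key_iter A φ hA j)
  simp only [HahnSeries.coeff_add] at h ⊢
  rw [U_iter_coeff, U_iter_coeff, U_coeff, HahnSeries.coeff_add, HahnSeries.coeff_add] at h
  rw [← h]
  have e : (3 : ℤ) ^ (2 * 2 ^ j + 1) * k = 9 ^ 2 ^ j * (3 * k) := by
    rw [pow_succ, pow_mul]
    norm_num
    ring
  rw [e]

end Pool.Agent.TH890.P3
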