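import Pool.Agent.TH890.P3.Alg
import Pool.Agent.H413R3.Part.Pt

set_option autoImplicit false

/-!
# Multipartitions and the Laurent series
-/

namespace Pool.Agent.TH890.P3

open PowerSeries Pool.Agent.H397R2.PP Pool.Agent.H413R3.Part

/-- the `u` coprime to 6 with `M u ^ 2 ≤ n` -/
def us (M n : ℕ) : Finset ℕ :=
  (Finset.range (n + 1)).filter (fun u => Nat.Coprime u 6 ∧ M * u ^ 2 ≤ n)

/-- the sum of the values of `g` at `(n - M u ^ 2) / 8`, modulo 2 -/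
noncomputable def psum2 (g : ℕ → ℕ) (M n : ℕ) : ZMod 2 :=
  ∑ u ∈ us M n, (g ((n - M * u ^ 2) / 8) : ZMod 2)

theorem cop6 (u : ℕ) : Nat.Coprime u 6 ↔ u % 2 = 1 ∧ u % 3 ≠ 0 := by
  rw [show (6 : ℕ) = 2 * 3 from rfl, Nat.coprime_mul_iff_right, Nat.coprime_comm,
    Nat.coprime_comm (n := u) (m := 3)]
  rw [Nat.Prime.coprime_iff_not_dvd Nat.prime_two, Nat.Prime.coprime_iff_not_dvd Nat.prime_three]
  omega

/-- the squares of the integers coprime to 6 -/
def isSq6 (n : ℕ) : Prop := ∃ u : ℕ, Nat.Coprime u 6 ∧ n = u ^ 2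

theorem theta_eq : Db + PowerSeries.expand 3 (by norm_num) (PowerSeries.expand 3 (by norm_num) Db) =
    TH.ind isSq6 := by
  classical
  rw [TH.Db_ind, TH.expand_ind, TH.expand_ind]
  ext n
  rw [map_add, TH.coeff_ind, TH.coeff_ind, TH.coeff_ind]
  by_cases h1 : TH.isOdd n
  · obtain ⟨i, rfl⟩ := h1
    rw [if_pos ⟨i, rfl⟩]
    by_cases h3 : (2 * i + 1) % 3 = 0
    · obtain ⟨c, hc⟩ : ∃ c, i = 3 * c + 1 := ⟨i / 3, by omega⟩
      subst hc
      rw [if_pos ⟨3 * (2 * c + 1) ^ 2, by ring, (2 * c + 1) ^ 2, rfl, c, rfl⟩, if_neg]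
      · decide
      · rintro ⟨u, hu, h⟩
        have h2 : 2 * (3 * c + 1) + 1 = u := Nat.pow_left_injective (n := 2) (by norm_num) h
        rw [cop6] at hu
        omega
    · rw [if_neg, if_pos ⟨2 * i + 1, (cop6 _).mpr ⟨by omega, h3⟩, rfl⟩, add_zero]
      rintro ⟨k, h2, k', h4, j, h5⟩
      have h6 : (2 * i + 1) ^ 2 = (3 * (2 * j + 1)) ^ 2 := by
        rw [h2, h4, h5]; ring
      have h7 : 2 * i + 1 = 3 * (2 * j + 1) := Nat.pow_left_injective (n := 2) (by norm_num) h6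
      omega
  · rw [if_neg h1, if_neg, if_neg, add_zero]
    · rintro ⟨u, hu, rfl⟩
      rw [cop6] at hu
      apply h1
      refine ⟨u / 2, ?_⟩
      congr 1
      omega
    · rintro ⟨k, h2, k', h4, j, h5⟩
      apply h1
      refine ⟨3 * j + 1, ?_⟩
      rw [h2, h4, h5]; ring

theorem theta_pow (e M : ℕ) (hM : M = 2 ^ e) : D ^ M + V (V (D ^ M)) =
    ι (TH.ind fun n => ∃ k, n = M * k ∧ isSq6 k) := by
  have hM0 : M ≠ 0 := by rw [hM]; positivity
  rw [← TH.expand_ind isSq6 M hM0, ← theta_eq, ← pow_eq_expand' M e hM0 hM, hM, T3.add_pow,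
    map_add, D]
  have h1 : V (V (ι Db ^ 2 ^ e)) =
      ι (PowerSeries.expand 3 (by norm_num) (PowerSeries.expand 3 (by norm_num) Db)) ^ 2 ^ e := by
    rw [map_pow, map_pow, V_ι, V_ι]
  have h2 := map_pow ι Db (2 ^ e)
  have h3 := map_pow ι
    (PowerSeries.expand 3 (by norm_num) (PowerSeries.expand 3 (by norm_num) Db)) (2 ^ e)
  rw [h1, h2, h3]

theorem P_neg (s t : ℕ) (ht : t = 3 * s) :
    P (-(s : ℤ)) = HahnSeries.single (-(s : ℤ)) 1 * ι (PowerSeries.expand 8 (by norm_num)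
      ((PowerSeries.mk fun n => (Fintype.card (Nat.Partition n) : ZMod 2)) ^ t)) := by
  set F : (ZMod 2)⟦X⟧ := PowerSeries.mk fun n => (Fintype.card (Nat.Partition n) : ZMod 2)
    with hF
  set f : (ZMod 2)⟦X⟧ := pentagonalSeries (ZMod 2) with hf
  have hFf : F * f = 1 := mk_card_mul_pentagonalSeries (ZMod 2)
  have h1 : Db ^ s * PowerSeries.expand 8 (by norm_num) (F ^ t) = X ^ s := by
    have h2 : f ^ (24 * s) = PowerSeries.expand 8 (by norm_num) (f ^ t) := by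
      rw [← pow_eq_expand' 8 3 (by norm_num) (by norm_num), ← pow_mul]
      congr 1
      rw [ht]; ring
    rw [Db, ← hf, mul_pow, ← pow_mul, h2, mul_assoc, ← map_mul, ← mul_pow, mul_comm f F, hFf,
      one_pow, map_one, mul_one]
  have h3 : P (s : ℤ) * ι (PowerSeries.expand 8 (by norm_num) (F ^ t)) =
      HahnSeries.single (s : ℤ) 1 := by
    rw [P_nat, ← map_mul, h1, map_pow, HahnSeries.ofPowerSeries_X, HahnSeries.single_pow]
    simp
  have h4 : P (-(s : ℤ)) * P (s : ℤ) = 1 := by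
    rw [P_add, neg_add_cancel, P, zpow_zero]
  have h5 : (HahnSeries.single (-(s : ℤ)) 1 : K) * HahnSeries.single (s : ℤ) 1 = 1 := by
    rw [HahnSeries.single_mul_single, neg_add_cancel, mul_one]
    rfl
  calc P (-(s : ℤ)) = P (-(s : ℤ)) * (HahnSeries.single (-(s : ℤ)) 1 * HahnSeries.single (s : ℤ) 1) := by
        rw [h5, mul_one]
    _ = P (-(s : ℤ)) * (HahnSeries.single (-(s : ℤ)) 1 * (P (s : ℤ) *
          ι (PowerSeries.expand 8 (by norm_num) (F ^ t)))) := by rw [h3]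
    _ = (P (-(s : ℤ)) * P (s : ℤ)) * (HahnSeries.single (-(s : ℤ)) 1 *
          ι (PowerSeries.expand 8 (by norm_num) (F ^ t))) := by ring
    _ = _ := by rw [h4, one_mul]

theorem sq_mod8 (u : ℕ) (h : u % 2 = 1) : u ^ 2 % 8 = 1 := by
  rw [Nat.pow_mod]
  have h8 : u % 8 = 1 ∨ u % 8 = 3 ∨ u % 8 = 5 ∨ u % 8 = 7 := by omega
  rcases h8 with h8 | h8 | h8 | h8 <;> rw [h8]

theorem coeff_psum2 (M t n : ℕ) (hM0 : 0 < M) (hn : n % 8 = M % 8) :
    coeff n (TH.ind (fun n => ∃ k, n = M * k ∧ isSq6 k) *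
      PowerSeries.expand 8 (by norm_num)
      ((PowerSeries.mk fun n => (Fintype.card (Nat.Partition n) : ZMod 2)) ^ t)) =
      psum2 (mp t) M n := by
  classical
  unfold psum2
  rw [coeff_mul]
  symm
  apply Finset.sum_of_injOn (fun u : ℕ => (M * u ^ 2, n - M * u ^ 2))
  · intro u hu v hv h
    simp only [Prod.mk.injEq] at h
    have h2 := Nat.eq_of_mul_eq_mul_left hM0 h.1
    exact Nat.pow_left_injective (n := 2) (by norm_num) h2
  · intro u hu
    simp only [us, Finset.coe_filter, Set.mem_ofPred_eq] at hu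
    simp only [Finset.mem_coe, Finset.HasAntidiagonal.mem_antidiagonal]
    omega
  · rintro ⟨i, j⟩ hij hne
    simp only [Finset.HasAntidiagonal.mem_antidiagonal] at hij
    rw [TH.coeff_ind, if_neg, zero_mul]
    rintro ⟨k, hk, u, hu, hk2⟩
    apply hne
    simp only at hk
    refine ⟨u, ?_, ?_⟩
    · simp only [us, Finset.coe_filter, Set.mem_ofPred_eq, Finset.mem_range]
      have h1 : M * u ^ 2 ≤ n := by rw [← hk2, ← hk]; omega
      have h2 : u ≤ u ^ 2 := by nlinarith [Nat.zero_le u]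
      have h3 : u ^ 2 ≤ M * u ^ 2 := Nat.le_mul_of_pos_left _ hM0
      exact ⟨by omega, hu, h1⟩
    · simp only [Prod.mk.injEq]
      rw [← hk2, ← hk]
      exact ⟨rfl, by omega⟩
  · intro u hu
    simp only [us, Finset.mem_filter] at hu
    obtain ⟨_, hu6, hle⟩ := hu
    simp only
    rw [TH.coeff_ind, if_pos ⟨u ^ 2, rfl, u, hu6, rfl⟩, one_mul]
    have h8 : 8 ∣ n - M * u ^ 2 := by
      have h1 := sq_mod8 u ((cop6 u).mp hu6).1
      have h2 : (M * u ^ 2) % 8 = M % 8 := by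
        rw [Nat.mul_mod, h1, mul_one, Nat.mod_mod]
      omega
    obtain ⟨q, hq⟩ := h8
    rw [hq, coeff_expand_mul, coeff_pow_eq, Nat.mul_div_cancel_left _ (by norm_num)]

theorem link (M e s t n : ℕ) (hM : M = 2 ^ e) (ht : t = 3 * s) (hn : n % 8 = M % 8) :
    (D ^ M * P (-(s : ℤ)) + V (V (D ^ M)) * P (-(s : ℤ))).coeff ((n : ℤ) + (-(s : ℤ))) =
      psum2 (mp t) M n := by
  have hM0 : 0 < M := by rw [hM]; positivity
  rw [← add_mul, theta_pow e M hM, P_neg s t ht, ← mul_assoc, mul_comm (ι _), mul_assoc, ← map_mul,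
    HahnSeries.coeff_single_mul_add, one_mul, ι_coeff]
  exact coeff_psum2 M t n hM0 hn

/-- **the identity between the two sums** -/
theorem psum2_add (M e s t σ a r j : ℕ) (hMe : M = 2 ^ e) (he : 3 ≤ e) (hs : 9 * s ≤ M)
    (hso : s % 2 = 1) (ht : t = 3 * s) (hσ : M - s < 2 * 4 ^ (σ - 1)) (hσ1 : 1 ≤ σ)
    (ha : a + 1 + 2 ^ j = 2 ^ σ) (hr : ¬ 3 ∣ r) (hmod : (3 ^ (a + 1) * r + s) % 8 = 0) :
    psum2 (mp t) M (9 ^ 2 ^ j * (3 ^ (a + 1) * r) + s) + psum2 (mp t) M (3 ^ (a + 1) * r + s) =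
      0 := by
  have hM8 : M % 8 = 0 := by
    obtain ⟨u, rfl⟩ : ∃ u, e = u + 3 := ⟨e - 3, by omega⟩
    rw [hMe, pow_add]; omega
  have h9 : (9 ^ 2 ^ j * (3 ^ (a + 1) * r) + s) % 8 = 0 := by
    have : 9 ^ 2 ^ j % 8 = 1 := by rw [Nat.pow_mod]; simp
    have h2 : (9 ^ 2 ^ j * (3 ^ (a + 1) * r)) % 8 = (3 ^ (a + 1) * r) % 8 := by
      rw [Nat.mul_mod, this, one_mul, Nat.mod_mod]
    omega
  rw [← link M e s t _ hMe ht (by rw [hM8, h9]), ← link M e s t _ hMe ht (by rw [hM8, hmod])]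
  have h := two_coeff M e s σ a r j hMe (by omega) hs hso hσ hσ1 ha hr
  have e1 : (((9 ^ 2 ^ j * (3 ^ (a + 1) * r) + s : ℕ)) : ℤ) + (-(s : ℤ)) =
      9 ^ 2 ^ j * ((3 ^ (a + 1) * r : ℕ) : ℤ) := by
    push_cast; ring
  have e2 : (((3 ^ (a + 1) * r + s : ℕ)) : ℤ) + (-(s : ℤ)) = ((3 ^ (a + 1) * r : ℕ) : ℤ) := by
    push_cast; ring
  rw [e1, e2]
  exact h

end Pool.Agent.TH890.P3
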