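import Pool.Agent.TH890.P3.Cnt

set_option autoImplicit false

/-!
# The counting argument
-/

namespace Pool.Agent.TH890.P3

open PowerSeries Pool.Agent.H397R2.PP Pool.Agent.H413R3.Part

/-- the good `r` -/
noncomputable def good (s M Q q c N κ l : ℕ) : Finset ℕ :=
  (Finset.range N).filter (fun r : ℕ => (r % q = c % q ∧ r % 3 ≠ 0) ∧
    ((M : ℝ) * (6 * κ * l + 1) ^ 2 - s) / Q ≤ r ∧
      (r : ℝ) < ((M : ℝ) * (6 * κ * l + 2) ^ 2 - s) / Q)

theorem mem_good (s M Q q c N κ l r : ℕ) (hQ : 0 < Q) : r ∈ good s M Q q c N κ l ↔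
    r < N ∧ (r % q = c % q ∧ r % 3 ≠ 0) ∧ M * (6 * κ * l + 1) ^ 2 ≤ Q * r + s ∧
      Q * r + s < M * (6 * κ * l + 2) ^ 2 := by
  have hQR : (0 : ℝ) < Q := by exact_mod_cast hQ
  unfold good
  rw [Finset.mem_filter, Finset.mem_range, div_le_iff₀ hQR, lt_div_iff₀ hQR]
  have e1 : ((M : ℝ) * (6 * κ * l + 1) ^ 2 - s ≤ r * Q) ↔
      M * (6 * κ * l + 1) ^ 2 ≤ Q * r + s := by
    rw [sub_le_iff_le_add, show (r : ℝ) * Q + s = ((Q * r + s : ℕ) : ℝ) by
      push_cast; ring, show (M : ℝ) * (6 * κ * l + 1) ^ 2 = ((M * (6 * κ * l + 1) ^ 2 : ℕ) : ℝ) by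
      push_cast; ring, Nat.cast_le]
  have e2 : ((r : ℝ) * Q < (M : ℝ) * (6 * κ * l + 2) ^ 2 - s) ↔
      Q * r + s < M * (6 * κ * l + 2) ^ 2 := by
    rw [lt_sub_iff_add_lt, show (r : ℝ) * Q + s = ((Q * r + s : ℕ) : ℝ) by
      push_cast; ring, show (M : ℝ) * (6 * κ * l + 2) ^ 2 = ((M * (6 * κ * l + 2) ^ 2 : ℕ) : ℝ) by
      push_cast; ring, Nat.cast_lt]
  rw [e1, e2]

theorem card_good (s M Q q c N κ l : ℕ) (hM : s ≤ M) (hQ : 0 < Q) (hq : Nat.Coprime q 3)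
    (hq0 : 0 < q) (hN : M * (6 * κ * l + 2) ^ 2 ≤ Q * N) :
    2 * (M : ℝ) * (12 * κ * l + 3) / (3 * q * Q) - 2 ≤ ((good s M Q q c N κ l).card : ℝ) := by
  have hQR : (0 : ℝ) < Q := by exact_mod_cast hQ
  have hqR : (0 : ℝ) < q := by exact_mod_cast hq0
  have hMR : (s : ℝ) ≤ M := by exact_mod_cast hM
  have hs : (0 : ℝ) ≤ s := by positivity
  have hl : (0 : ℝ) ≤ 6 * κ * l := by positivity
  have h := card_classes_ge' q c N hq (((M : ℝ) * (6 * κ * l + 1) ^ 2 - s) / Q)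
    (((M : ℝ) * (6 * κ * l + 2) ^ 2 - s) / Q)
    (by
      apply div_nonneg _ hQR.le
      have h1 : (1 : ℝ) ≤ (6 * κ * l + 1) ^ 2 := by nlinarith
      have h2 : (M : ℝ) * 1 ≤ M * (6 * κ * l + 1) ^ 2 :=
        mul_le_mul_of_nonneg_left h1 (by positivity)
      linarith)
    (by
      rw [div_le_iff₀ hQR]
      have : ((M * (6 * κ * l + 2) ^ 2 : ℕ) : ℝ) ≤ ((Q * N : ℕ) : ℝ) := by exact_mod_cast hN
      push_cast at this
      linarith)
  refine le_trans (le_of_eq ?_) h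
  field_simp
  ring

theorem res_class (n M u ρ b : ℕ) (hn : n ≡ M + 8 * ρ [MOD 8 * 2 ^ b]) (hMb : 2 ^ b ∣ M)
    (hM8 : M % 8 = 0) (hu : u % 2 = 1) (hle : M * u ^ 2 ≤ n) :
    ∃ e, n = 8 * e + M * u ^ 2 ∧ e % 2 ^ b = ρ % 2 ^ b ∧ (n - M * u ^ 2) / 8 = e := by
  have h1 := sq_mod8 u hu
  obtain ⟨c, hc⟩ : ∃ c, u ^ 2 = 8 * c + 1 := ⟨u ^ 2 / 8, by omega⟩
  have hn8 : n % 8 = 0 := by
    have h2 : n % 8 = (M + 8 * ρ) % 8 := Nat.ModEq.of_dvd (dvd_mul_right 8 _) hn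
    omega
  have h8 : (M * u ^ 2) % 8 = 0 := by rw [Nat.mul_mod, hM8, zero_mul, Nat.zero_mod]
  obtain ⟨e, he⟩ : ∃ e, n = 8 * e + M * u ^ 2 := ⟨(n - M * u ^ 2) / 8, by omega⟩
  refine ⟨e, he, ?_, by omega⟩
  obtain ⟨d, hd⟩ := hMb
  have h3 : 8 * e + (M * u ^ 2) ≡ 8 * ρ + (M * u ^ 2) [MOD 8 * 2 ^ b] := by
    rw [← he]
    refine hn.trans ?_
    have h4 : M * u ^ 2 = M + 8 * 2 ^ b * (d * c) := by
      rw [hc]
      calc M * (8 * c + 1) = M + 8 * (M * c) := by ring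
        _ = M + 8 * 2 ^ b * (d * c) := by
          congr 1
          rw [show 8 * 2 ^ b * (d * c) = 8 * (2 ^ b * d * c) by ring, ← hd]
    rw [h4, add_comm M, ← add_assoc]
    exact (Nat.modEq_iff_dvd' (by omega)).mpr (by
      rw [Nat.add_sub_cancel_left]; exact dvd_mul_right _ _)
  have h5 : 8 * e ≡ 8 * ρ [MOD 8 * 2 ^ b] := Nat.ModEq.add_right_cancel' _ h3
  exact Nat.ModEq.mul_left_cancel' (by norm_num) h5

/-- the interval of `n1` -/
theorem n1_bounds (M s κ l n1 n2 : ℕ) (hκ : 3 ≤ κ) (hs : 9 * s ≤ M)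
    (h : κ ^ 2 * n1 + s = n2 + κ ^ 2 * s) (h1 : M * (6 * κ * l + 1) ^ 2 ≤ n2)
    (h2 : n2 < M * (6 * κ * l + 2) ^ 2) :
    M * (6 * l) ^ 2 ≤ n1 ∧ n1 < M * (6 * l + 1) ^ 2 := by
  have hκ2 : 9 ≤ κ ^ 2 := by nlinarith
  have hκ0 : 0 < κ ^ 2 := by omega
  constructor
  · have h3 : κ ^ 2 * (M * (6 * l) ^ 2) ≤ κ ^ 2 * n1 := by
      have e1 : κ ^ 2 * (M * (6 * l) ^ 2) = M * (6 * κ * l) ^ 2 := by ring
      have e2 : M * (6 * κ * l) ^ 2 ≤ M * (6 * κ * l + 1) ^ 2 :=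
        Nat.mul_le_mul_left _ (Nat.pow_le_pow_left (by omega) 2)
      have e3 : s ≤ κ ^ 2 * s := Nat.le_mul_of_pos_left _ hκ0
      omega
    exact le_of_mul_le_mul_left h3 hκ0
  · have h3 : κ ^ 2 * n1 < κ ^ 2 * (M * (6 * l + 1) ^ 2) := by
      have e1 : κ ^ 2 * (M * (6 * l + 1) ^ 2) = M * (6 * κ * l + κ) ^ 2 := by ring
      rw [e1]
      have e2 : M * (6 * κ * l + 2) ^ 2 + M * (κ ^ 2 - 4) ≤ M * (6 * κ * l + κ) ^ 2 := by
        rw [← mul_add]
        apply Nat.mul_le_mul_left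
        have e3 : 4 ≤ κ ^ 2 := by omega
        zify [e3]
        nlinarith [mul_nonneg (mul_nonneg (by positivity : (0 : ℤ) ≤ (κ : ℤ)) (by positivity : (0 : ℤ) ≤ (l : ℤ)))
          (by have : (3 : ℤ) ≤ κ := by exact_mod_cast hκ
              linarith : (0 : ℤ) ≤ (κ : ℤ) - 2)]
      have e4 : κ ^ 2 * s ≤ M * (κ ^ 2 - 4) := by
        have e5 : κ ^ 2 * s ≤ 9 * s * (κ ^ 2 - 4) := by
          obtain ⟨w, hw⟩ : ∃ w, κ ^ 2 = w + 4 := ⟨κ ^ 2 - 4, by omega⟩
          rw [hw, Nat.add_sub_cancel]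
          have : 5 ≤ w := by omega
          nlinarith [Nat.zero_le s]
        exact e5.trans (Nat.mul_le_mul_right _ hs)
      omega
    exact lt_of_mul_lt_mul_left h3 (Nat.zero_le _)

open Classical in
/-- **The counting argument.** -/
theorem count2 (g : ℕ → ℕ) (s i M a b ρ x L κ P Q : ℕ) (hMi : M = 2 ^ i) (hi : 3 ≤ i)
    (hbi : b ≤ i) (hs : 9 * s ≤ M) (hκ : κ = 3 ^ 2 ^ b) (hP : P = 3 ^ (a + 1))
    (hQ : Q = 9 ^ 2 ^ b * P)
    (hid : ∀ r, ¬ 3 ∣ r → (P * r + s) % 8 = 0 →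
      psum2 g M (Q * r + s) + psum2 g M (P * r + s) = 0)
    (hL : L = Nat.sqrt (2 * x / (9 * 9 ^ 2 ^ b * M))) :
    (M : ℝ) * L * (L - 1) / (2 * 2 ^ b * κ * P) - 2 * L ≤
      ((evenAP g b ρ x).card : ℝ) * (16 * L / P + 4) := by
  have hM1 : 0 < M := by rw [hMi]; positivity
  have hM8 : M % 8 = 0 := by
    obtain ⟨u, rfl⟩ : ∃ u, i = u + 3 := ⟨i - 3, by omega⟩
    rw [hMi, pow_add]; omega
  have hP1 : 0 < P := by rw [hP]; positivity
  have hQ1 : 0 < Q := by rw [hQ]; positivity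
  have hκ3 : 3 ≤ κ := by
    rw [hκ]
    calc 3 = 3 ^ 1 := by norm_num
      _ ≤ 3 ^ 2 ^ b := Nat.pow_le_pow_right (by norm_num) Nat.one_le_two_pow
  have hκ2 : κ ^ 2 = 9 ^ 2 ^ b := by
    rw [hκ, ← pow_mul, mul_comm, pow_mul]; norm_num
  have hQκ : Q = κ ^ 2 * P := by rw [hκ2, hQ]
  have hQA : Q = 3 ^ (a + 1 + 2 * 2 ^ b) := by
    rw [hQ, hP, pow_add 3 (a + 1), pow_mul 3 2]; norm_num; ring
  have hMb : 2 ^ b ∣ M := by rw [hMi]; exact pow_dvd_pow 2 hbi
  set q := 8 * 2 ^ b with hq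
  have hq0 : 0 < q := by positivity
  have hqpow : q = 2 ^ (b + 3) := by rw [hq, pow_add]; ring
  have hq1 : 1 < q := by
    have : 1 ≤ 2 ^ b := Nat.one_le_two_pow
    omega
  have hq3 : Nat.Coprime q 3 := by
    rw [hqpow]; exact Nat.Coprime.pow_left _ (by norm_num)
  have hPq : Nat.Coprime P q := by
    rw [hP, hqpow]; exact Nat.Coprime.pow _ _ (by norm_num)
  obtain ⟨c, hc⟩ := exists_res P q (M + 8 * ρ + (q - 1) * s) hPq hq1
  have hLsq : 9 * 9 ^ 2 ^ b * M * (L * L) ≤ 2 * x := by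
    have h1 : L * L ≤ 2 * x / (9 * 9 ^ 2 ^ b * M) := by rw [hL]; exact Nat.sqrt_le _
    calc 9 * 9 ^ 2 ^ b * M * (L * L) ≤ 9 * 9 ^ 2 ^ b * M * (2 * x / (9 * 9 ^ 2 ^ b * M)) :=
          Nat.mul_le_mul_left _ h1
      _ ≤ 2 * x := Nat.mul_div_le _ _
  set N := M * (6 * κ * L + 2) ^ 2 with hN
  set R := (Finset.range L).biUnion (fun l => good s M Q q c N κ l) with hR
  -- lower bound
  have hdisj : ((Finset.range L : Finset ℕ) : Set ℕ).PairwiseDisjoint
      (fun l => good s M Q q c N κ l) := by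
    intro l _ l' _ hne
    rw [Function.onFun, Finset.disjoint_left]
    intro r h h'
    rw [mem_good _ _ _ _ _ _ _ _ _ hQ1] at h h'
    have key : ∀ u v : ℕ, u < v → M * (6 * κ * v + 1) ^ 2 ≤ Q * r + s →
        Q * r + s < M * (6 * κ * u + 2) ^ 2 → False := by
      intro u v huv h5 h6
      have h7 : M * (6 * κ * v + 1) ^ 2 < M * (6 * κ * u + 2) ^ 2 := lt_of_le_of_lt h5 h6
      have h8 : (6 * κ * v + 1) ^ 2 < (6 * κ * u + 2) ^ 2 :=
        lt_of_mul_lt_mul_left h7 (Nat.zero_le _)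
      have h9 : 6 * κ * v + 1 < 6 * κ * u + 2 := lt_of_pow_lt_pow_left₀ 2 (by omega) h8
      have h10 : 6 * κ * (u + 1) ≤ 6 * κ * v := Nat.mul_le_mul_left _ huv
      rw [Nat.mul_succ] at h10
      omega
    rcases lt_or_gt_of_ne hne with h1 | h1
    · exact key l l' h1 h'.2.2.1 h.2.2.2
    · exact key l' l h1 h.2.2.1 h'.2.2.2
  have hκR : (0 : ℝ) < κ := by exact_mod_cast (by omega : 0 < κ)
  have hPR : (0 : ℝ) < P := by exact_mod_cast hP1
  have hMR : (0 : ℝ) < M := by exact_mod_cast hM1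
  have hlow : (M : ℝ) * L * (L - 1) / (2 * 2 ^ b * κ * P) - 2 * L ≤ (R.card : ℝ) := by
    rw [hR, Finset.card_biUnion hdisj]
    push_cast
    have h1 : ∑ l ∈ Finset.range L, (2 * (M : ℝ) * (12 * κ * l + 3) / (3 * q * Q) - 2) ≤
        ∑ l ∈ Finset.range L, ((good s M Q q c N κ l).card : ℝ) := by
      refine Finset.sum_le_sum fun l hl => card_good s M Q q c N κ l (by omega) hQ1 hq3 hq0 ?_
      have hl' := Finset.mem_range.mp hl
      have h2 : 6 * κ * l ≤ 6 * κ * L := Nat.mul_le_mul_left _ hl'.le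
      have : M * (6 * κ * l + 2) ^ 2 ≤ N :=
        Nat.mul_le_mul_left _ (Nat.pow_le_pow_left (by omega) 2)
      exact this.trans (Nat.le_mul_of_pos_left _ hQ1)
    refine le_trans ?_ h1
    have h2 : ∀ T : ℕ, ∑ l ∈ Finset.range T, (2 * (M : ℝ) * (12 * κ * l + 3) / (3 * q * Q) - 2) =
        2 * (M : ℝ) * (6 * κ * T * (T - 1) + 3 * T) / (3 * q * Q) - 2 * T := by
      intro T
      have hqR : (0 : ℝ) < q := by exact_mod_cast hq0
      have hQR : (0 : ℝ) < Q := by exact_mod_cast hQ1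
      induction T with
      | zero => simp
      | succ T ih =>
        rw [Finset.sum_range_succ, ih]
        push_cast
        field_simp
        ring
    rw [h2 L]
    have hqR : (q : ℝ) = 8 * 2 ^ b := by rw [hq]; push_cast; ring
    have hQR : (Q : ℝ) = κ ^ 2 * P := by rw [hQκ]; push_cast; ring
    rw [hqR, hQR]
    have e1 : (M : ℝ) * L * (L - 1) / (2 * 2 ^ b * κ * P) =
        2 * (M : ℝ) * (6 * κ * L * (L - 1)) / (3 * (8 * 2 ^ b) * (κ ^ 2 * P)) := by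
      field_simp
      ring
    rw [e1]
    have h3 : 2 * (M : ℝ) * (6 * κ * L * (L - 1)) / (3 * (8 * 2 ^ b) * (κ ^ 2 * P)) ≤
        2 * (M : ℝ) * (6 * κ * L * (L - 1) + 3 * L) / (3 * (8 * 2 ^ b) * (κ ^ 2 * P)) := by
      apply div_le_div_of_nonneg_right _ (by positivity)
      apply mul_le_mul_of_nonneg_left _ (by positivity)
      have : (0 : ℝ) ≤ L := by positivity
      linarith
    linarith
  -- upper bound
  set H1 : ℕ → Finset ℕ := fun e => (Finset.range (6 * L + 1)).filter (fun u => Nat.Coprime u 6 ∧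
      ∃ r, 3 ^ (a + 1) * r + s = 8 * e + M * u ^ 2) with hH1
  set H2 : ℕ → Finset ℕ := fun e => (Finset.range (6 * κ * L + 1)).filter
    (fun u => Nat.Coprime u 6 ∧
      ∃ r, 3 ^ (a + 1 + 2 * 2 ^ b) * r + s = 8 * e + M * u ^ 2) with hH2
  have hsub : R ⊆ (evenAP g b ρ x).biUnion
      (fun e => (H1 e).image (fun u => (8 * e + M * u ^ 2 - s) / P) ∪
        (H2 e).image (fun u => (8 * e + M * u ^ 2 - s) / Q)) := by
    intro r hr
    obtain ⟨l, hl, hrl⟩ := Finset.mem_biUnion.mp hr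
    rw [mem_good _ _ _ _ _ _ _ _ _ hQ1] at hrl
    obtain ⟨_, ⟨hr8, hr3⟩, hA, hB⟩ := hrl
    have hlL := Finset.mem_range.mp hl
    have hκl : 6 * κ * (l + 1) ≤ 6 * κ * L := Nat.mul_le_mul_left _ hlL
    rw [Nat.mul_succ] at hκl
    have g1 : (P * r) % q = (M + 8 * ρ + (q - 1) * s) % q := by
      rw [← hc, Nat.mul_mod, hr8, ← Nat.mul_mod]
    have g2 : P * r + s ≡ M + 8 * ρ [MOD q] := by
      have h1 : P * r + s ≡ M + 8 * ρ + (q - 1) * s + s [MOD q] := Nat.ModEq.add_right s g1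
      have h2 : M + 8 * ρ + (q - 1) * s + s = M + 8 * ρ + q * s := by
        obtain ⟨q', hq'⟩ : ∃ q', q = q' + 1 := ⟨q - 1, by omega⟩
        rw [hq', Nat.add_sub_cancel]; ring
      rw [h2] at h1
      refine h1.trans ?_
      have h3 : M + 8 * ρ + q * s ≡ M + 8 * ρ + 0 [MOD q] :=
        Nat.ModEq.add_left _ ((Nat.modEq_zero_iff_dvd).mpr (dvd_mul_right q s))
      rw [add_zero] at h3
      exact h3
    have g3 : Q * r + s ≡ M + 8 * ρ [MOD q] := by
      have h1 : Q * r ≡ 1 * (P * r) [MOD q] := by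
        rw [hQ, mul_assoc]
        apply Nat.ModEq.mul_right
        unfold Nat.ModEq
        rw [hqpow, pow9_mod, Nat.mod_eq_of_lt]
        calc 1 < 2 ^ 3 := by norm_num
          _ ≤ 2 ^ (b + 3) := Nat.pow_le_pow_right (by norm_num) (by omega)
      rw [one_mul] at h1
      exact (Nat.ModEq.add_right s h1).trans g2
    have hmod8 : (P * r + s) % 8 = 0 := by
      have h1 : (P * r + s) % 8 = (M + 8 * ρ) % 8 := Nat.ModEq.of_dvd (dvd_mul_right 8 _) g2
      omega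
    have hrel : κ ^ 2 * (P * r + s) + s = (Q * r + s) + κ ^ 2 * s := by
      rw [hQκ]; ring
    obtain ⟨b1, b2⟩ := n1_bounds M s κ l (P * r + s) (Q * r + s) hκ3 hs hrel hA hB
    have c1 := card_us_even M (P * r + s) l hM1 b1 b2
    have c2 : (us M (Q * r + s)).card = 2 * (κ * l) + 1 := by
      apply card_us_odd M (Q * r + s) (κ * l) hM1
      · rw [← mul_assoc]; exact hA
      · rw [← mul_assoc]; exact hB
    have hsum := hid r (by omega) hmod8
    have hQx : Q * r + s < 8 * x + 8 := by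
      have h1 : M * (6 * κ * l + 2) ^ 2 ≤ M * (6 * κ * L) ^ 2 :=
        Nat.mul_le_mul_left _ (Nat.pow_le_pow_left (by omega) 2)
      have h2 : M * (6 * κ * L) ^ 2 = 4 * (9 * 9 ^ 2 ^ b * M * (L * L)) := by
        rw [← hκ2]; ring
      omega
    have hPx : P * r + s ≤ Q * r + s := by
      have : P * r ≤ Q * r := by
        apply Nat.mul_le_mul_right
        rw [hQκ]
        exact Nat.le_mul_of_pos_left _ (by positivity)
      omega
    have hex := exists_even g M (P * r + s) (Q * r + s) hsum (by rw [c1, c2]; omega)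
    rcases hex with ⟨u, hu, heven⟩ | ⟨u, hu, heven⟩
    · rw [mem_us _ _ _ hM1] at hu
      obtain ⟨hu6, hule⟩ := hu
      obtain ⟨e, he1, he2, he3⟩ := res_class (P * r + s) M u ρ b g2 hMb hM8
        ((cop6 u).mp hu6).1 hule
      refine Finset.mem_biUnion.mpr ⟨e, ?_, Finset.mem_union_left _ (Finset.mem_image.mpr ⟨u, ?_, ?_⟩)⟩
      · unfold evenAP
        rw [Finset.mem_filter, Finset.mem_range]
        rw [he3] at heven
        exact ⟨by omega, he2, heven⟩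
      · rw [Finset.mem_filter, Finset.mem_range]
        refine ⟨?_, hu6, r, by rw [← hP]; exact he1⟩
        have h3 : M * u ^ 2 < M * (6 * l + 1) ^ 2 := by omega
        have h4 : u ^ 2 < (6 * l + 1) ^ 2 := lt_of_mul_lt_mul_left h3 (Nat.zero_le _)
        have h5 : u < 6 * l + 1 := lt_of_pow_lt_pow_left₀ 2 (by omega) h4
        omega
      · rw [← he1, Nat.add_sub_cancel]
        exact Nat.mul_div_cancel_left _ hP1
    · rw [mem_us _ _ _ hM1] at hu
      obtain ⟨hu6, hule⟩ := hu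
      obtain ⟨e, he1, he2, he3⟩ := res_class (Q * r + s) M u ρ b g3 hMb hM8
        ((cop6 u).mp hu6).1 hule
      refine Finset.mem_biUnion.mpr ⟨e, ?_, Finset.mem_union_right _ (Finset.mem_image.mpr ⟨u, ?_, ?_⟩)⟩
      · unfold evenAP
        rw [Finset.mem_filter, Finset.mem_range]
        rw [he3] at heven
        exact ⟨by omega, he2, heven⟩
      · rw [Finset.mem_filter, Finset.mem_range]
        refine ⟨?_, hu6, r, by rw [← hQA]; exact he1⟩
        have h3 : M * u ^ 2 < M * (6 * κ * l + 2) ^ 2 := by omega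
        have h4 : u ^ 2 < (6 * κ * l + 2) ^ 2 := lt_of_mul_lt_mul_left h3 (Nat.zero_le _)
        have h5 : u < 6 * κ * l + 2 := lt_of_pow_lt_pow_left₀ 2 (by omega) h4
        omega
      · rw [← he1, Nat.add_sub_cancel]
        exact Nat.mul_div_cancel_left _ hQ1
  have h1 := (Finset.card_le_card hsub).trans Finset.card_biUnion_le
  have h2 : ∀ e ∈ evenAP g b ρ x,
      ((((H1 e).image (fun u => (8 * e + M * u ^ 2 - s) / P) ∪
        (H2 e).image (fun u => (8 * e + M * u ^ 2 - s) / Q)).card : ℕ) : ℝ) ≤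
      16 * L / P + 4 := by
    intro e _
    have g1 := card_hits i M s (6 * L) (a + 1) e hMi (by omega)
    have g2 := card_hits i M s (6 * κ * L) (a + 1 + 2 * 2 ^ b) e hMi (by omega)
    have g3 : ((((H1 e).image (fun u => (8 * e + M * u ^ 2 - s) / P) ∪
        (H2 e).image (fun u => (8 * e + M * u ^ 2 - s) / Q)).card : ℕ) : ℝ) ≤
        ((H1 e).card : ℝ) + ((H2 e).card : ℝ) := by
      exact_mod_cast (Finset.card_union_le _ _).trans
        (Nat.add_le_add Finset.card_image_le Finset.card_image_le)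
    refine g3.trans ((add_le_add g1 g2).trans ?_)
    have e1 : (3 : ℝ) ^ (a + 1) = P := by rw [hP]; push_cast; ring
    have e2 : (3 : ℝ) ^ (a + 1 + 2 * 2 ^ b) = κ ^ 2 * P := by
      rw [← Nat.cast_pow, ← Nat.cast_mul, ← hQκ, hQA]; push_cast; ring
    rw [e1, e2]
    have e3 : ((6 * κ * L : ℕ) : ℝ) / (κ ^ 2 * P) ≤ 2 * L / P := by
      rw [div_le_div_iff₀ (by positivity) hPR]
      push_cast
      have hκ3R : (3 : ℝ) ≤ κ := by exact_mod_cast hκ3
      have hLR : (0 : ℝ) ≤ L := by positivity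
      have h5 : 3 * (κ : ℝ) ≤ κ ^ 2 := by nlinarith
      have h6 := mul_le_mul_of_nonneg_left h5 (by positivity : (0 : ℝ) ≤ 2 * (L * P))
      linarith
    have e4 : 2 * (((6 * L : ℕ) : ℝ) / P + 1) = 12 * L / P + 2 := by push_cast; ring
    rw [e4]
    have e5 : 16 * (L : ℝ) / P + 4 = 12 * L / P + 2 + 2 * (2 * L / P + 1) := by ring
    rw [e5]
    linarith
  have h3 : (R.card : ℝ) ≤ ∑ e ∈ evenAP g b ρ x,
      ((((H1 e).image (fun u => (8 * e + M * u ^ 2 - s) / P) ∪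
        (H2 e).image (fun u => (8 * e + M * u ^ 2 - s) / Q)).card : ℕ) : ℝ) := by
    exact_mod_cast h1
  have h4 := h3.trans (Finset.sum_le_sum h2)
  rw [Finset.sum_const, nsmul_eq_mul] at h4
  exact hlow.trans h4

end Pool.Agent.TH890.P3
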